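import Mathlib

/-!
Counting exponent vectors in a box with prescribed sum.
-/

namespace Pool.Agent.Q75.Box

open Finset

/-- exponent vectors bounded by `N` with sum `d` -/
def box {ι : Type*} [Fintype ι] [DecidableEq ι] (N : ι → ℕ) (d : ℕ) : Finset (ι → ℕ) :=
  (Fintype.piFinset (fun l => range (N l + 1))).filter (fun a => ∑ l, a l = d)

lemma mem_box {ι : Type*} [Fintype ι] [DecidableEq ι] {N : ι → ℕ} {d : ℕ} {a : ι → ℕ} :
    a ∈ box N d ↔ (∀ l, a l ≤ N l) ∧ ∑ l, a l = d := by
  simp [box, Fintype.mem_piFinset, Nat.lt_succ_iff]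

lemma card_box {ι : Type*} [Fintype ι] [DecidableEq ι] (N : ι → ℕ) (d : ℕ) :
    ((box N d).card : ℤ) =
      PowerSeries.coeff d (∏ l, ∑ j ∈ range (N l + 1), (PowerSeries.X : PowerSeries ℤ) ^ j) := by
  rw [Finset.prod_univ_sum, map_sum, box, Finset.card_filter]
  push_cast
  refine Finset.sum_congr rfl fun a _ => ?_
  rw [Finset.prod_pow_eq_pow_sum, PowerSeries.coeff_X_pow]
  by_cases h : ∑ l, a l = d
  · simp [h]
  · rw [if_neg h, if_neg (fun h' => h h'.symm)]

/-- the box with `k` sides of length `A` and the other sides zero -/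
lemma card_box_eq {ι : Type*} [Fintype ι] [DecidableEq ι] (S : Finset ι) (A d : ℕ) :
    ((box (fun l => if l ∈ S then A else 0) d).card : ℤ) =
      PowerSeries.coeff d ((∑ j ∈ range (A + 1), (PowerSeries.X : PowerSeries ℤ) ^ j) ^ S.card) := by
  rw [card_box]
  congr 1
  rw [← Finset.prod_const, ← Finset.prod_filter_mul_prod_filter_not univ (fun l => l ∈ S)]
  rw [Finset.prod_congr rfl (g := fun _ => ∑ j ∈ range (A + 1), (PowerSeries.X : PowerSeries ℤ) ^ j)
    (s₁ := univ.filter (fun l => l ∈ S))]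
  · rw [Finset.prod_congr rfl (g := fun _ => (1 : PowerSeries ℤ))
      (s₁ := univ.filter (fun l => ¬ l ∈ S))]
    · simp
    · intro l hl
      rw [if_neg (Finset.mem_filter.1 hl).2]
      simp
  · intro l hl
    rw [if_pos (Finset.mem_filter.1 hl).2]

lemma geom_pow (A : ℕ) :
    (∑ j ∈ range (A + 1), (PowerSeries.X : PowerSeries ℤ) ^ j) ^ 7 =
      (1 - PowerSeries.X ^ (A + 1)) ^ 7 *
        (PowerSeries.mk fun n => ((Nat.choose (6 + n) 6 : ℕ) : ℤ)) := by
  have h1 : (1 - PowerSeries.X : PowerSeries ℤ) ^ 7 *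
      (PowerSeries.mk fun n => ((Nat.choose (6 + n) 6 : ℕ) : ℤ)) = 1 := by
    have h := (PowerSeries.invOneSubPow ℤ (6 + 1)).inv_val
    rw [PowerSeries.invOneSubPow_inv_eq_one_sub_pow,
      PowerSeries.invOneSubPow_val_succ_eq_mk_add_choose] at h
    exact h
  have h2 : (1 - PowerSeries.X ^ (A + 1) : PowerSeries ℤ) =
      (∑ j ∈ range (A + 1), (PowerSeries.X : PowerSeries ℤ) ^ j) * (1 - PowerSeries.X) := by
    rw [geom_sum_mul_neg]
  rw [h2, mul_pow, mul_assoc, h1, mul_one]

lemma coeff_formula (A d : ℕ) (h : d < 4 * (A + 1)) :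
    PowerSeries.coeff d ((∑ j ∈ range (A + 1), (PowerSeries.X : PowerSeries ℤ) ^ j) ^ 7) =
      (Nat.choose (6 + d) 6 : ℤ)
      - 7 * (if A + 1 ≤ d then (Nat.choose (6 + (d - (A + 1))) 6 : ℤ) else 0)
      + 21 * (if 2 * (A + 1) ≤ d then (Nat.choose (6 + (d - 2 * (A + 1))) 6 : ℤ) else 0)
      - 35 * (if 3 * (A + 1) ≤ d then (Nat.choose (6 + (d - 3 * (A + 1))) 6 : ℤ) else 0) := by
  rw [geom_pow]
  set Q : PowerSeries ℤ := PowerSeries.mk fun n => ((Nat.choose (6 + n) 6 : ℕ) : ℤ) with hQ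
  have hexp : (1 - PowerSeries.X ^ (A + 1) : PowerSeries ℤ) ^ 7 * Q =
      Q - PowerSeries.C 7 * (PowerSeries.X ^ (A + 1) * Q)
        + PowerSeries.C 21 * (PowerSeries.X ^ (2 * (A + 1)) * Q)
        - PowerSeries.C 35 * (PowerSeries.X ^ (3 * (A + 1)) * Q)
        + PowerSeries.X ^ (4 * (A + 1)) * ((35 - 21 * PowerSeries.X ^ (A + 1)
          + 7 * PowerSeries.X ^ (2 * (A + 1)) - PowerSeries.X ^ (3 * (A + 1))) * Q) := by
    have e7 : (PowerSeries.C 7 : PowerSeries ℤ) = 7 := map_ofNat _ _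
    have e21 : (PowerSeries.C 21 : PowerSeries ℤ) = 21 := map_ofNat _ _
    have e35 : (PowerSeries.C 35 : PowerSeries ℤ) = 35 := map_ofNat _ _
    rw [e7, e21, e35]
    simp only [pow_mul']
    ring
  rw [hexp]
  simp only [map_add, map_sub, PowerSeries.coeff_C_mul, PowerSeries.coeff_X_pow_mul']
  rw [if_neg (not_le.2 h)]
  simp only [hQ, PowerSeries.coeff_mk, add_zero]

lemma choose6 (n : ℕ) : (Nat.choose n 6) = n.descFactorial 6 / 720 := by
  rw [Nat.choose_eq_descFactorial_div_factorial]; rfl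

lemma card738 {ι : Type*} [Fintype ι] [DecidableEq ι] (S : Finset ι) (hS : S.card = 7) :
    (box (fun l => if l ∈ S then 211 else 0) 738).card = 46393725664048 := by
  have h := card_box_eq S 211 738
  rw [hS, coeff_formula _ _ (by norm_num)] at h
  simp only [choose6] at h
  norm_num [Nat.descFactorial] at h
  exact_mod_cast h

lemma card491 {ι : Type*} [Fintype ι] [DecidableEq ι] (S : Finset ι) (hS : S.card = 7) :
    (box (fun l => if l ∈ S then 211 else 0) 491).card = 15369603632600 := by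
  have h := card_box_eq S 211 491
  rw [hS, coeff_formula _ _ (by norm_num)] at h
  simp only [choose6] at h
  norm_num [Nat.descFactorial] at h
  exact_mod_cast h

lemma card492 {ι : Type*} [Fintype ι] [DecidableEq ι] (S : Finset ι) (hS : S.card = 7) :
    (box (fun l => if l ∈ S then 211 else 0) 492).card = 15511685732669 := by
  have h := card_box_eq S 211 492
  rw [hS, coeff_formula _ _ (by norm_num)] at h
  simp only [choose6] at h
  norm_num [Nat.descFactorial] at h
  exact_mod_cast h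

end Pool.Agent.Q75.Box
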