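import Pool.Agent.H689R3.WeylGeomC
import Pool.Agent.Q75.BoxCount

/-!
Effective divisors from spaces of forms with bounded exponents.
-/

namespace Pool.Agent.Q75.Box

open Finset MvPolynomial Pool.Agent.H689R3.Weyl

variable {s n : ℕ}

/-- Taylor coefficient of `x ^ a` at `q` with index `b` -/
noncomputable def tc (q : Fin (n + 1) → ℂ) (a b : Fin (n + 1) → ℕ) : ℂ :=
  ∏ l, ((Nat.choose (a l) (b l) : ℂ) * q l ^ (a l - b l))

lemma one_var (x : ℂ) (a b : ℕ) :
    ((b : ℂ) + 1) * x * ((Nat.choose a (b + 1) : ℂ) * x ^ (a - (b + 1))) =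
      ((a : ℂ) - b) * ((Nat.choose a b : ℂ) * x ^ (a - b)) := by
  have hc : (Nat.choose a (b + 1) : ℂ) * ((b : ℂ) + 1) = (Nat.choose a b : ℂ) * ((a - b : ℕ) : ℂ) := by
    have := Nat.choose_succ_right_eq a b
    exact_mod_cast this
  rcases lt_trichotomy a b with h | h | h
  · rw [Nat.choose_eq_zero_of_lt h, Nat.choose_eq_zero_of_lt (by omega)]; simp
  · subst h
    rw [Nat.choose_eq_zero_of_lt (by omega)]; simp
  · have h1 : a - b = (a - (b + 1)) + 1 := by omega
    have h2 : ((a - b : ℕ) : ℂ) = (a : ℂ) - b := by rw [Nat.cast_sub h.le]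
    rw [h2] at hc
    calc ((b : ℂ) + 1) * x * ((Nat.choose a (b + 1) : ℂ) * x ^ (a - (b + 1)))
        = ((Nat.choose a (b + 1) : ℂ) * ((b : ℂ) + 1)) * (x ^ (a - (b + 1)) * x) := by ring
      _ = ((Nat.choose a b : ℂ) * ((a : ℂ) - b)) * x ^ (a - b) := by
          rw [hc, ← pow_succ, ← h1]
      _ = _ := by ring

lemma euler (q : Fin (n + 1) → ℂ) (a b : Fin (n + 1) → ℕ) :
    ∑ l, ((b l : ℂ) + 1) * q l * tc q a (b + Pi.single l 1) =
      (((∑ l, a l : ℕ) : ℂ) - ((∑ l, b l : ℕ) : ℂ)) * tc q a b := by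
  classical
  have h : ∀ l, ((b l : ℂ) + 1) * q l * tc q a (b + Pi.single l 1) =
      ((a l : ℂ) - b l) * tc q a b := by
    intro l
    unfold tc
    rw [← Finset.mul_prod_erase univ _ (mem_univ l), ← Finset.mul_prod_erase univ _ (mem_univ l)]
    have h1 : ∏ k ∈ univ.erase l, ((Nat.choose (a k) ((b + Pi.single l 1 : Fin (n + 1) → ℕ) k) : ℂ) *
        q k ^ (a k - (b + Pi.single l 1 : Fin (n + 1) → ℕ) k)) =
        ∏ k ∈ univ.erase l, ((Nat.choose (a k) (b k) : ℂ) * q k ^ (a k - b k)) := by
      refine Finset.prod_congr rfl fun k hk => ?_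
      have hk' : k ≠ l := Finset.ne_of_mem_erase hk
      simp [hk']
    rw [h1]
    have h2 := one_var (q l) (a l) (b l)
    have h3 : (b + Pi.single l 1 : Fin (n + 1) → ℕ) l = b l + 1 := by simp
    rw [h3, ← mul_assoc, h2, mul_assoc]
  rw [Finset.sum_congr rfl fun l _ => h l, ← Finset.sum_mul]
  push_cast
  rw [Finset.sum_sub_distrib]

/-- exponent vector as finitely supported function -/
noncomputable def fs (a : Fin (n + 1) → ℕ) : Fin (n + 1) →₀ ℕ := Finsupp.equivFunOnFinite.symm a

lemma fs_apply (a : Fin (n + 1) → ℕ) (l : Fin (n + 1)) : fs a l = a l := rfl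

lemma fs_inj {a b : Fin (n + 1) → ℕ} (h : fs a = fs b) : a = b :=
  Finsupp.equivFunOnFinite.symm.injective h

lemma coeff_prod (q : Fin (n + 1) → ℂ) (a : Fin (n + 1) → ℕ) (b : Fin (n + 1) → ℕ) :
    coeff (fs b) (∏ l, (X l + C (q l) : MvPolynomial (Fin (n + 1)) ℂ) ^ a l) = tc q a b := by
  classical
  have h1 : ∀ l, (X l + C (q l) : MvPolynomial (Fin (n + 1)) ℂ) ^ a l =
      ∑ k ∈ range (a l + 1), monomial (Finsupp.single l k)
        ((Nat.choose (a l) k : ℂ) * q l ^ (a l - k)) := by
    intro l
    rw [add_pow]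
    refine Finset.sum_congr rfl fun k _ => ?_
    rw [X_pow_eq_monomial, ← C_pow, ← map_natCast (C : ℂ →+* MvPolynomial (Fin (n + 1)) ℂ),
      mul_assoc, ← C_mul, mul_comm, C_mul_monomial, mul_one, mul_comm]
  rw [Finset.prod_congr rfl fun l _ => h1 l, Finset.prod_univ_sum, coeff_sum]
  have h2 : ∀ p : Fin (n + 1) → ℕ, ∏ l, monomial (Finsupp.single l (p l))
      ((Nat.choose (a l) (p l) : ℂ) * q l ^ (a l - p l)) =
      (monomial (fs p) (tc q a p) : MvPolynomial (Fin (n + 1)) ℂ) := by
    intro p
    rw [← MvPolynomial.monomial_sum_prod]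
    have : ∑ l, Finsupp.single l (p l) = fs p := by
      ext k
      simp [fs_apply, Finsupp.finsetSum_apply, Finsupp.single_apply]
    rw [this]; rfl
  rw [Finset.sum_congr rfl fun p _ => congrArg (coeff (fs b)) (h2 p)]
  by_cases hb : b ∈ Fintype.piFinset (fun l => range (a l + 1))
  · rw [Finset.sum_eq_single b]
    · rw [coeff_monomial, if_pos rfl]
    · intro p _ hp
      rw [coeff_monomial, if_neg (fun h => hp (fs_inj h))]
    · intro h; exact absurd hb h
  · rw [Finset.sum_eq_zero]
    · rw [Fintype.mem_piFinset] at hb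
      push Not at hb
      obtain ⟨l, hl⟩ := hb
      rw [mem_range, not_lt] at hl
      unfold tc
      rw [Finset.prod_eq_zero (mem_univ l)]
      rw [Nat.choose_eq_zero_of_lt (by omega)]; simp
    · intro p hp
      rw [coeff_monomial, if_neg]
      intro h; exact hb (fs_inj h ▸ hp)

lemma coeff_shift (q : Fin (n + 1) → ℂ) (a b : Fin (n + 1) → ℕ) (c : ℂ) :
    coeff (fs b) (shift q (monomial (fs a) c)) = c * tc q a b := by
  have h : shift q (monomial (fs a) c) =
      C c * ∏ l, (X l + C (q l) : MvPolynomial (Fin (n + 1)) ℂ) ^ a l := by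
    unfold shift
    rw [aeval_monomial, Finsupp.prod_fintype _ _ (by intro; simp)]
    rfl
  rw [h, coeff_C_mul, coeff_prod]

/-- **Existence of forms in a box.** If the number of exponent vectors of degree `d` bounded by
`N` exceeds the sum of the numbers of exponent vectors of degrees `m j - 1` bounded by `N`, then
there is a nonzero form of degree `d` with exponents bounded by `N` vanishing to order `m j` at
the points `q j`. -/
lemma exists_form {J : Type*} [Fintype J] (q : J → Fin (n + 1) → ℂ) (m : J → ℕ) (d : ℕ)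
    (N : Fin (n + 1) → ℕ) (hmd : ∀ j, m j ≤ d)
    (hcard : ∑ j, (box N (m j - 1)).card < (box N d).card) :
    ∃ f : MvPolynomial (Fin (n + 1)) ℂ, f ≠ 0 ∧ f.IsHomogeneous d ∧
      (∀ a ∈ f.support, ∀ l, a l ≤ N l) ∧
      ∀ j, f ∈ (RingHom.ker (MvPolynomial.eval (q j))) ^ (m j) := by
  classical
  let T : (↥(box N d) → ℂ) →ₗ[ℂ] ((Σ j, ↥(box N (m j - 1))) → ℂ) :=
    Matrix.mulVecLin (Matrix.of fun r a => tc (q r.1) a.1 r.2.1)
  have hker : LinearMap.ker T ≠ ⊥ := by
    apply LinearMap.ker_ne_bot_of_finrank_lt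
    rw [Module.finrank_fintype_fun_eq_card, Module.finrank_fintype_fun_eq_card,
      Fintype.card_sigma]
    simpa using hcard
  obtain ⟨c, hc, hc0⟩ := (Submodule.ne_bot_iff _).1 hker
  have hc' : ∀ r : (Σ j, ↥(box N (m j - 1))), ∑ a : ↥(box N d), tc (q r.1) a.1 r.2.1 * c a = 0 :=
    fun r => congrFun hc r
  -- the Taylor coefficients
  let G : J → (Fin (n + 1) → ℕ) → ℂ := fun j b => ∑ a : ↥(box N d), c a * tc (q j) a.1 b
  have hG0 : ∀ j b, ∑ l, b l = m j - 1 → G j b = 0 := by
    intro j b hb
    by_cases hbN : b ∈ box N (m j - 1)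
    · have := hc' ⟨j, b, hbN⟩
      simp only at this
      rw [← this]
      exact Finset.sum_congr rfl fun a _ => mul_comm _ _
    · refine Finset.sum_eq_zero fun a _ => ?_
      rw [mem_box] at hbN
      have hex : ∃ l, N l < b l := by
        by_contra hcon
        push Not at hcon
        exact hbN ⟨hcon, hb⟩
      obtain ⟨l, hl⟩ := hex
      have hal := (mem_box.1 a.2).1 l
      unfold tc
      rw [Finset.prod_eq_zero (mem_univ l), mul_zero]
      rw [Nat.choose_eq_zero_of_lt (by omega)]; simp
  have hGe : ∀ j b, ∑ l, ((b l : ℂ) + 1) * q j l * G j (b + Pi.single l 1) =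
      ((d : ℂ) - ((∑ l, b l : ℕ) : ℂ)) * G j b := by
    intro j b
    have h1 : ∀ l, ((b l : ℂ) + 1) * q j l * G j (b + Pi.single l 1) =
        ∑ a : ↥(box N d), c a * (((b l : ℂ) + 1) * q j l * tc (q j) a.1 (b + Pi.single l 1)) := by
      intro l
      simp only [G, Finset.mul_sum]
      exact Finset.sum_congr rfl fun a _ => by ring
    rw [Finset.sum_congr rfl fun l _ => h1 l, Finset.sum_comm]
    simp only [G, Finset.mul_sum]
    refine Finset.sum_congr rfl fun a _ => ?_
    rw [← Finset.mul_sum, euler, (mem_box.1 a.2).2]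
    ring
  have hGall : ∀ j, ∀ k b, ∑ l, b l + k = m j - 1 → G j b = 0 := by
    intro j k
    induction k with
    | zero => intro b hb; exact hG0 j b hb
    | succ k ih =>
      intro b hb
      have h1 := hGe j b
      rw [Finset.sum_eq_zero] at h1
      · have h2 : ((d : ℂ) - ((∑ l, b l : ℕ) : ℂ)) ≠ 0 := by
          rw [sub_ne_zero]
          intro h3
          have h4 : d = ∑ l, b l := by exact_mod_cast h3
          have := hmd j
          omega
        exact (mul_eq_zero.1 h1.symm).resolve_left h2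
      · intro l _
        rw [ih, mul_zero]
        have h5 : ∑ k, (b + Pi.single l 1 : Fin (n + 1) → ℕ) k = ∑ k, b k + 1 := by
          simp [Finset.sum_add_distrib]
        rw [h5]; omega
  let f : MvPolynomial (Fin (n + 1)) ℂ := ∑ a : ↥(box N d), monomial (fs a.1) (c a)
  have hcoeff : ∀ a : ↥(box N d), coeff (fs a.1) f = c a := by
    intro a
    rw [coeff_sum, Finset.sum_eq_single a]
    · rw [coeff_monomial, if_pos rfl]
    · intro b _ hb
      rw [coeff_monomial, if_neg]
      intro h; exact hb (Subtype.ext (fs_inj h))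
    · intro h; exact absurd (mem_univ _) h
  refine ⟨f, ?_, ?_, ?_, ?_⟩
  · intro h
    apply hc0
    funext a
    rw [← hcoeff a, h, coeff_zero]; rfl
  · refine MvPolynomial.IsHomogeneous.sum _ _ _ fun a _ => ?_
    apply isHomogeneous_monomial
    rw [Finsupp.degree_eq_sum]
    exact (mem_box.1 a.2).2
  · intro a ha l
    have h := MvPolynomial.support_sum ha
    rw [Finset.mem_biUnion] at h
    obtain ⟨b, _, hb⟩ := h
    have h1 := MvPolynomial.support_monomial_subset hb
    rw [Finset.mem_singleton] at h1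
    rw [h1]
    exact (mem_box.1 b.2).1 l
  · intro j
    rw [mem_ker_pow_iff]
    intro b hb
    have hb' : fs (fun l => b l) = b := by ext l; rfl
    have h1 : coeff b (shift (q j) f) = G j (fun l => b l) := by
      conv_lhs => rw [← hb']
      simp only [f, map_sum, coeff_sum, coeff_shift, G]
    rw [h1]
    rw [Finsupp.degree_eq_sum] at hb
    refine hGall j (m j - 1 - ∑ l, b l) _ ?_
    omega

/-- **Effectivity in the box.** Let `I` be a set of `n + 1` points (enumerated by `e`), let `N` be
bounds on the exponents. A class `D` of degree `d` whose multiplicities at the points of `I` are at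
most `d - N l` and such that the sum of the numbers of exponent vectors of degree `D.2 j - 1`
(`j` not in `I`) bounded by `N` is smaller than the number of exponent vectors of degree `d`
bounded by `N` is effective for all configurations of points. -/
theorem effAll_box (I : Finset (Fin s)) (e : Fin (n + 1) ≃ I) (D : NInt s) (d : ℕ)
    (hd : D.1 = d) (N : Fin (n + 1) → ℕ) (hI : ∀ l, D.2 (e l) + N l ≤ d)
    (hJ : ∀ j, j ∉ I → D.2 j ≤ d)
    (hcard : ∑ j : ↥(univ \ I : Finset (Fin s)), (box N ((D.2 j).toNat - 1)).card < (box N d).card) :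
    EffAll n D := by
  classical
  by_contra hcon
  unfold EffAll at hcon
  push Not at hcon
  obtain ⟨p', hp'⟩ := hcon
  obtain ⟨G, hG0, hG⟩ := exists_poly _ p' hp'
  have hprod : G * nondeg e = 0 := by
    apply MvPolynomial.funext
    intro w
    rw [map_zero, map_mul]
    by_cases hw : MvPolynomial.eval w (nondeg e) = 0
    · rw [hw, mul_zero]
    let p : Fin s → Fin (n + 1) → ℂ := fun i l => w (i, l)
    have hwp : flat p = w := rfl
    have h1 := eval_nondeg e p
    rw [hwp] at h1
    rw [h1] at hw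
    have hdet : (ptMat e p).det ≠ 0 := left_ne_zero_of_mul hw
    set A := ptMat e p with hA
    have hunit : IsUnit A.det := isUnit_iff_ne_zero.2 hdet
    let u : Fin s → Fin (n + 1) → ℂ := fun j => A⁻¹.mulVec (p j)
    have hue : ∀ l, u (e l) = bas l := by
      intro l
      have h1 : p (e l) = A.mulVec (bas l) := by
        funext k
        simp [bas, hA, ptMat, Matrix.mulVec_single_one]
      change A⁻¹.mulVec (p (e l)) = _
      rw [h1, Matrix.mulVec_mulVec, Matrix.nonsing_inv_mul _ hunit, Matrix.one_mulVec]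
    obtain ⟨f, hf0, hf, hfN, hfm⟩ := exists_form (fun j : ↥(univ \ I : Finset (Fin s)) => u j)
      (fun j => (D.2 j).toNat) d N (fun j => by
        have := hJ j.1 (Finset.mem_sdiff.1 j.2).2
        omega) hcard
    have hu : IsEffective u D := by
      refine ⟨by rw [hd]; positivity, f, hf0, by rw [hd]; simpa using hf, fun j => ?_⟩
      unfold VanishesToOrder
      by_cases hj : j ∈ I
      · obtain ⟨l, hl⟩ := e.surjective ⟨j, hj⟩
        have hjl : j = e l := by rw [hl]
        rw [hjl, hue l]
        apply mem_of_exponents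
        intro a ha
        have h6 : a l + ∑ l' ∈ univ.erase l, a l' = a.degree := by
          rw [Finsupp.degree_eq_sum]
          exact Finset.add_sum_erase _ _ (mem_univ l)
        have h7 := homog_degree hf ha
        have h8 := hfN a ha l
        have h9 := hI l
        omega
      · exact hfm ⟨j, Finset.mem_sdiff.2 ⟨mem_univ _, hj⟩⟩
    have h3 := effective_linear hu A hunit
    have h4 : (fun i => A.mulVec (u i)) = p := by
      funext j
      change A.mulVec (A⁻¹.mulVec (p j)) = p j
      rw [Matrix.mulVec_mulVec, Matrix.mul_nonsing_inv _ hunit, Matrix.one_mulVec]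
    rw [h4] at h3
    have h5 := hG p h3
    rw [hwp] at h5
    rw [h5, zero_mul]
  rcases mul_eq_zero.1 hprod with h1 | h1
  · exact hG0 h1
  · exact nondeg_ne_zero e h1

end Pool.Agent.Q75.Box
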