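import Mathlib

/-!
# Laurent series: algebraic constants, and polynomials close to a split polynomial
-/

namespace Pool.Agent.Q75.DSA

open Polynomial

/-- Laurent series over the rationals. -/
abbrev La : Type := LaurentSeries ℚ

/-- Algebraic power series over `ℚ` are constant. -/
theorem ps_const (g : PowerSeries ℚ) (hg : IsAlgebraic ℚ g) :
    g = PowerSeries.C (PowerSeries.constantCoeff g) := by
  set c := PowerSeries.constantCoeff g with hc
  by_contra hne
  set h : PowerSeries ℚ := g - PowerSeries.C c with hh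
  have hh0 : h ≠ 0 := sub_ne_zero.2 hne
  have halg : IsAlgebraic ℚ h := by
    refine hg.sub ?_
    exact isAlgebraic_algebraMap c
  have hint : IsIntegral ℚ h := halg.isIntegral
  have hcc : PowerSeries.constantCoeff h = 0 := by
    rw [hh, map_sub, ← hc]; simp
  have h1 := minpoly.coeff_zero_ne_zero hint hh0
  apply h1
  have h2 := minpoly.aeval ℚ h
  have h3 := congrArg (PowerSeries.constantCoeff (R := ℚ)) h2
  rw [map_zero, aeval_def, hom_eval₂, hcc] at h3
  have h4 : (PowerSeries.constantCoeff (R := ℚ)).comp (algebraMap ℚ (PowerSeries ℚ)) =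
      RingHom.id ℚ := Subsingleton.elim _ _
  rw [h4, eval₂_id, ← coeff_zero_eq_eval_zero] at h3
  exact h3

/-- `ℚ` is relatively algebraically closed in the field of Laurent series. -/
theorem la_const (a : La) (ha : IsAlgebraic ℚ a) : ∃ q : ℚ, a = algebraMap ℚ La q := by
  have key : ∀ g : PowerSeries ℚ, IsAlgebraic ℚ (algebraMap (PowerSeries ℚ) La g) →
      ∃ q : ℚ, algebraMap (PowerSeries ℚ) La g = algebraMap ℚ La q := by
    intro g hg
    have hinj : Function.Injective (algebraMap (PowerSeries ℚ) La) :=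
      IsFractionRing.injective _ _
    have hg' : IsAlgebraic ℚ g := by
      obtain ⟨p, hp, hpg⟩ := hg
      refine ⟨p, hp, hinj ?_⟩
      rw [map_zero, ← hpg, aeval_def, aeval_def, hom_eval₂]
      congr 1
    refine ⟨PowerSeries.constantCoeff g, ?_⟩
    conv_lhs => rw [ps_const g hg']
    have : (algebraMap (PowerSeries ℚ) La).comp (PowerSeries.C (R := ℚ)) = algebraMap ℚ La :=
      Subsingleton.elim _ _
    exact congrArg (fun f : ℚ →+* La => f (PowerSeries.constantCoeff g)) this
  rcases ValuationRing.isInteger_or_isInteger (PowerSeries ℚ) a with ⟨g, hg⟩ | ⟨g, hg⟩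
  · rw [← hg]
    exact key g (by rw [hg]; exact ha)
  · obtain ⟨q, hq⟩ := key g (by rw [hg]; exact ha.inv)
    refine ⟨q⁻¹, ?_⟩
    rw [map_inv₀, ← hq, hg, inv_inv]

/-- the variable in the field of Laurent series -/
noncomputable def uu : La := algebraMap (PowerSeries ℚ) La PowerSeries.X

/-- Multiplying a polynomial by a high power of the variable makes its coefficients divisible
by the variable. -/
theorem exists_lift (A : La[X]) : ∃ m₀ : ℕ, ∀ m, m₀ ≤ m → ∃ W : (PowerSeries ℚ)[X],
    W.map (algebraMap (PowerSeries ℚ) La) = C (uu ^ m) * A ∧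
      ∀ i, PowerSeries.constantCoeff (W.coeff i) = 0 := by
  induction A using Polynomial.induction_on' with
  | add p q hp hq =>
    obtain ⟨m1, h1⟩ := hp
    obtain ⟨m2, h2⟩ := hq
    refine ⟨max m1 m2, fun m hm => ?_⟩
    obtain ⟨W1, h3, h4⟩ := h1 m (le_trans (le_max_left _ _) hm)
    obtain ⟨W2, h5, h6⟩ := h2 m (le_trans (le_max_right _ _) hm)
    refine ⟨W1 + W2, by rw [Polynomial.map_add, h3, h5, mul_add], fun i => ?_⟩
    rw [coeff_add, map_add, h4, h6, add_zero]
  | monomial n a =>
    obtain ⟨⟨g, s⟩, hgs⟩ := IsLocalization.surj (Submonoid.powers (PowerSeries.X : PowerSeries ℚ)) a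
    obtain ⟨⟨_, ⟨k, rfl⟩⟩, hs⟩ : ∃ s' : Submonoid.powers (PowerSeries.X : PowerSeries ℚ), s' = s :=
      ⟨s, rfl⟩
    rw [← hs] at hgs
    simp only [map_pow] at hgs
    refine ⟨k + 1, fun m hm => ⟨monomial n (PowerSeries.X ^ (m - k) * g), ?_, fun i => ?_⟩⟩
    · rw [map_monomial, map_mul, map_pow, ← hgs, C_mul_monomial]
      congr 1
      have : uu ^ m = uu ^ (m - k) * uu ^ k := by rw [← pow_add]; congr 1; omega
      rw [this]
      unfold uu
      ring
    · rw [coeff_monomial]
      split_ifs
      · rw [map_mul, map_pow, PowerSeries.constantCoeff_X, zero_pow (by omega), zero_mul]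
      · simp

/-- The split polynomial with roots `0, 1, …, n-1`. -/
noncomputable def QQ (R : Type*) [CommRing R] (n : ℕ) : R[X] :=
  ∏ j ∈ Finset.range n, (X - C (j : R))

theorem QQ_monic (R : Type*) [CommRing R] (n : ℕ) : (QQ R n).Monic :=
  monic_prod_of_monic _ _ fun _ _ => monic_X_sub_C _

theorem QQ_natDegree (R : Type*) [CommRing R] [Nontrivial R] (n : ℕ) :
    (QQ R n).natDegree = n := by
  unfold QQ
  rw [natDegree_prod_of_monic _ _ fun _ _ => monic_X_sub_C _]
  simp only [natDegree_X_sub_C]
  simp

theorem QQ_map {R S : Type*} [CommRing R] [CommRing S] (f : R →+* S) (n : ℕ) :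
    (QQ R n).map f = QQ S n := by
  unfold QQ
  rw [Polynomial.map_prod]
  simp

theorem QQ_eval (R : Type*) [CommRing R] (n j : ℕ) (hj : j < n) : (QQ R n).eval (j : R) = 0 := by
  unfold QQ
  rw [eval_prod]
  exact Finset.prod_eq_zero (Finset.mem_range.2 hj) (by simp)

theorem QQ_deriv (n j : ℕ) (hj : j < n) : (derivative (QQ ℚ n)).eval (j : ℚ) ≠ 0 := by
  unfold QQ
  rw [derivative_prod_finset, eval_finset_sum, Finset.sum_eq_single_of_mem j (Finset.mem_range.2 hj)]
  · simp only [derivative_sub, derivative_X, derivative_natCast, map_natCast, sub_zero, mul_one]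
    rw [eval_prod]
    refine Finset.prod_ne_zero_iff.2 fun i hi => ?_
    rw [Finset.mem_erase] at hi
    simp only [eval_sub, eval_X, eval_natCast]
    rw [sub_ne_zero]
    exact_mod_cast hi.1.symm
  · intro i _ hij
    rw [eval_mul, eval_prod]
    rw [Finset.prod_eq_zero (i := j)]
    · simp
    · rw [Finset.mem_erase]; exact ⟨hij.symm, Finset.mem_range.2 hj⟩
    · simp

/-- A polynomial over the power series ring which is congruent to `QQ n` modulo the variable
splits over the field of Laurent series. -/
theorem split_of_near (n : ℕ) (W : (PowerSeries ℚ)[X]) (hdeg : W.degree < n)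
    (hW : ∀ i, PowerSeries.constantCoeff (W.coeff i) = 0) :
    ((QQ (PowerSeries ℚ) n + W).map (algebraMap (PowerSeries ℚ) La)).Splits := by
  set H := QQ (PowerSeries ℚ) n + W with hH
  have hQd : (QQ (PowerSeries ℚ) n).degree = n := by
    rw [degree_eq_natDegree (QQ_monic _ _).ne_zero, QQ_natDegree]
  have hmon : H.Monic := (QQ_monic _ _).add_of_left (by rw [hQd]; exact hdeg)
  have hnd : H.natDegree = n := by
    rw [hH, natDegree_add_eq_left_of_degree_lt (by rw [hQd]; exact hdeg), QQ_natDegree]
  have hWc : W.map (PowerSeries.constantCoeff (R := ℚ)) = 0 := by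
    ext i; simp [hW]
  have hHc : H.map (PowerSeries.constantCoeff (R := ℚ)) = QQ ℚ n := by
    rw [hH, Polynomial.map_add, hWc, add_zero, QQ_map]
  have hI : ∀ g : PowerSeries ℚ, g ∈ (Ideal.span {PowerSeries.X} : Ideal (PowerSeries ℚ)) ↔
      PowerSeries.constantCoeff g = 0 := by
    intro g
    rw [Ideal.mem_span_singleton, PowerSeries.X_dvd_iff]
  have hroot : ∀ j : ℕ, j < n → ∃ a : PowerSeries ℚ, H.IsRoot a ∧
      PowerSeries.constantCoeff a = j := by
    intro j hj
    have hcj : PowerSeries.constantCoeff (j : PowerSeries ℚ) = (j : ℚ) := by simp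
    have e1 : PowerSeries.constantCoeff (H.eval (j : PowerSeries ℚ)) = 0 := by
      rw [← eval₂_hom, ← eval_map, hHc, hcj, QQ_eval _ _ _ hj]
    have e2 : PowerSeries.constantCoeff ((derivative H).eval (j : PowerSeries ℚ)) ≠ 0 := by
      rw [← eval₂_hom, ← eval_map, ← derivative_map, hHc, hcj]
      exact QQ_deriv n j hj
    obtain ⟨a, ha, ha'⟩ := HenselianRing.is_henselian
      (I := (Ideal.span {PowerSeries.X} : Ideal (PowerSeries ℚ))) H hmon (j : PowerSeries ℚ)
      ((hI _).2 e1) (by
        apply IsUnit.map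
        rw [PowerSeries.isUnit_iff_constantCoeff]
        exact isUnit_iff_ne_zero.2 e2)
    refine ⟨a, ha, ?_⟩
    have := (hI _).1 ha'
    rw [map_sub, hcj, sub_eq_zero] at this
    exact this
  choose! a ha hac using hroot
  rw [splits_iff_card_roots]
  have hinj : Function.Injective (algebraMap (PowerSeries ℚ) La) := IsFractionRing.injective _ _
  have hm : (H.map (algebraMap (PowerSeries ℚ) La)).natDegree = n := by
    rw [natDegree_map_eq_of_injective hinj, hnd]
  have hne : H.map (algebraMap (PowerSeries ℚ) La) ≠ 0 := (hmon.map _).ne_zero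
  refine le_antisymm (card_roots' _) ?_
  rw [hm]
  classical
  have hsub : (Finset.range n).image (fun j => algebraMap (PowerSeries ℚ) La (a j)) ⊆
      (H.map (algebraMap (PowerSeries ℚ) La)).roots.toFinset := by
    intro x hx
    obtain ⟨j, hj, rfl⟩ := Finset.mem_image.1 hx
    rw [Multiset.mem_toFinset, mem_roots hne]
    exact (ha j (Finset.mem_range.1 hj)).map
  have hcard : ((Finset.range n).image (fun j => algebraMap (PowerSeries ℚ) La (a j))).card = n := by
    rw [Finset.card_image_of_injOn, Finset.card_range]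
    intro i hi j hj hij
    have h1 := hinj hij
    have h2 := congrArg (PowerSeries.constantCoeff (R := ℚ)) h1
    rw [hac i (by simpa using hi), hac j (by simpa using hj)] at h2
    exact_mod_cast h2
  calc n = _ := hcard.symm
    _ ≤ _ := Finset.card_le_card hsub
    _ ≤ _ := Multiset.toFinset_card_le _

end Pool.Agent.Q75.DSA
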