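import Pool.Agent.Q75.RCF
import Pool.Agent.Q75.DSA

/-!
# Order estimates in an ordered field which is algebraic over `ℚ(t)`, `t` infinitely large
-/

namespace Pool.Agent.Q75.DSB

open Polynomial

section ord

variable {K : Type*} [Field K] [LinearOrder K] [IsStrictOrderedRing K] (ψ : ℚ[X] →+* K)

theorem psi_C (q : ℚ) : ψ (C q) = (q : K) := by
  have : ψ.comp (C : ℚ →+* ℚ[X]) = algebraMap ℚ K := Subsingleton.elim _ _
  exact congrArg (fun f : ℚ →+* K => f q) this

theorem abs_psi_C (q : ℚ) : ∃ n : ℕ, |ψ (C q)| ≤ n := by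
  obtain ⟨n, hn⟩ := exists_nat_ge |q|
  refine ⟨n, ?_⟩
  rw [psi_C]
  exact_mod_cast hn

variable (ht : ∀ n : ℕ, (n : K) < ψ X)

include ht in
theorem one_lt : 1 < ψ X := by simpa using ht 1

include ht in
theorem bound_above (a : ℚ[X]) : ∃ k : ℕ, |ψ a| < ψ X ^ k := by
  have h1 := one_lt ψ ht
  have h0 : 0 < ψ X := zero_lt_one.trans h1
  induction a using Polynomial.induction_on' with
  | add p q hp hq =>
    obtain ⟨k1, h2⟩ := hp
    obtain ⟨k2, h3⟩ := hq
    refine ⟨max k1 k2 + 1, ?_⟩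
    have e1 : ψ X ^ k1 ≤ ψ X ^ max k1 k2 := pow_le_pow_right₀ h1.le (le_max_left _ _)
    have e2 : ψ X ^ k2 ≤ ψ X ^ max k1 k2 := pow_le_pow_right₀ h1.le (le_max_right _ _)
    have e3 : 0 < ψ X ^ max k1 k2 := pow_pos h0 _
    have e4 : (2 : K) < ψ X := by simpa using ht 2
    rw [map_add, pow_succ]
    have := abs_add_le (ψ p) (ψ q)
    nlinarith
  | monomial n q =>
    obtain ⟨N, hN⟩ := abs_psi_C ψ q
    refine ⟨n + 1, ?_⟩
    rw [← C_mul_X_pow_eq_monomial, map_mul, map_pow, abs_mul, abs_of_pos (pow_pos h0 n), pow_succ,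
      mul_comm]
    exact mul_lt_mul_of_pos_left (hN.trans_lt (ht N)) (pow_pos h0 n)

include ht in
theorem bound_below (a : ℚ[X]) (ha : a ≠ 0) : ∃ n : ℕ, 1 ≤ n * |ψ a| := by
  induction hd : a.natDegree using Nat.strong_induction_on generalizing a with
  | _ d ih =>
  have h1 := one_lt ψ ht
  have h0 : 0 < ψ X := zero_lt_one.trans h1
  have hdec := divX_mul_X_add a
  by_cases hz : divX a = 0
  · rw [hz, zero_mul, zero_add] at hdec
    have hc : a.coeff 0 ≠ 0 := by
      intro h; rw [h, map_zero] at hdec; exact ha hdec.symm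
    rw [← hdec]
    simp only [psi_C]
    obtain ⟨n, hn⟩ := exists_nat_ge (|a.coeff 0|⁻¹)
    refine ⟨n, ?_⟩
    have hp : 0 < |a.coeff 0| := abs_pos.2 hc
    have : 1 ≤ n * |a.coeff 0| := by
      rw [inv_le_iff_one_le_mul₀ hp] at hn
      linarith [mul_comm (n : ℚ) |a.coeff 0|]
    exact_mod_cast this
  · have hdeg : (divX a).natDegree < d := by
      rw [natDegree_divX_eq_natDegree_tsub_one]
      have : a.natDegree ≠ 0 := by
        intro h
        apply hz
        rw [eq_C_of_natDegree_eq_zero h, divX_C]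
      omega
    obtain ⟨n, hn⟩ := ih _ hdeg (divX a) hz rfl
    obtain ⟨N, hN⟩ := abs_psi_C ψ (a.coeff 0)
    refine ⟨n, ?_⟩
    have e1 : ψ a = ψ (divX a) * ψ X + ψ (C (a.coeff 0)) := by
      rw [← map_mul, ← map_add, hdec]
    have e2 : |ψ (divX a)| * ψ X ≤ |ψ a| + |ψ (C (a.coeff 0))| := by
      have : ψ (divX a) * ψ X = ψ a - ψ (C (a.coeff 0)) := by rw [e1]; ring
      calc |ψ (divX a)| * ψ X = |ψ (divX a) * ψ X| := by rw [abs_mul, abs_of_pos h0]
        _ ≤ _ := by rw [this]; exact abs_sub _ _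
    have e3 : ((n * N + 1 : ℕ) : K) < ψ X := ht _
    push_cast at e3
    have hn0 : (0 : K) ≤ n := Nat.cast_nonneg n
    nlinarith [mul_le_mul_of_nonneg_left e2 hn0, mul_le_mul_of_nonneg_left hN hn0,
      mul_le_mul_of_nonneg_right hn h0.le]

include ht in
/-- The powers of `t` are cofinal. -/
theorem cofinal (y : K) (p : ℚ[X][X]) (hp : p ≠ 0) (hy : eval₂ ψ y p = 0) :
    ∃ m : ℕ, y < ψ X ^ m := by
  have h1 := one_lt ψ ht
  have h0 : 0 < ψ X := zero_lt_one.trans h1
  rcases lt_or_ge y 1 with hy1 | hy1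
  · exact ⟨0, by simpa using hy1⟩
  have hy0 : 0 < y := zero_lt_one.trans_le hy1
  obtain ⟨n, hn⟩ := bound_below ψ ht p.leadingCoeff (leadingCoeff_ne_zero.2 hp)
  have hsum : ∀ s : Finset ℕ, ∃ k : ℕ, ∑ i ∈ s, |ψ (p.coeff i)| < ψ X ^ k := by
    intro s
    induction s using Finset.induction_on with
    | empty => exact ⟨0, by simp⟩
    | insert a s ha ih =>
      obtain ⟨k1, h2⟩ := ih
      obtain ⟨k2, h3⟩ := bound_above ψ ht (p.coeff a)
      refine ⟨max k1 k2 + 1, ?_⟩
      have e1 : ψ X ^ k1 ≤ ψ X ^ max k1 k2 := pow_le_pow_right₀ h1.le (le_max_left _ _)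
      have e2 : ψ X ^ k2 ≤ ψ X ^ max k1 k2 := pow_le_pow_right₀ h1.le (le_max_right _ _)
      have e3 : 0 < ψ X ^ max k1 k2 := pow_pos h0 _
      have e4 : (2 : K) < ψ X := by simpa using ht 2
      rw [Finset.sum_insert ha, pow_succ]
      nlinarith
  rw [eval₂_eq_sum_range, Finset.sum_range_succ] at hy
  obtain ⟨k, hk⟩ := hsum (Finset.range p.natDegree)
  have hlc : ψ (p.coeff p.natDegree) * y ^ p.natDegree =
      - ∑ i ∈ Finset.range p.natDegree, ψ (p.coeff i) * y ^ i := by linear_combination hy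
  rcases Nat.eq_zero_or_pos p.natDegree with hd | hd
  · exfalso
    rw [hd] at hlc
    simp only [pow_zero, mul_one, Finset.range_zero, Finset.sum_empty, neg_zero] at hlc
    rw [leadingCoeff, hd, hlc] at hn
    simp at hn
    linarith
  obtain ⟨e, he⟩ : ∃ e, p.natDegree = e + 1 := ⟨p.natDegree - 1, by omega⟩
  have hb : |ψ (p.coeff p.natDegree)| * y ^ p.natDegree ≤
      (∑ i ∈ Finset.range p.natDegree, |ψ (p.coeff i)|) * y ^ e := by
    calc |ψ (p.coeff p.natDegree)| * y ^ p.natDegree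
        = |ψ (p.coeff p.natDegree) * y ^ p.natDegree| := by
          rw [abs_mul, abs_of_pos (pow_pos hy0 _)]
      _ = |∑ i ∈ Finset.range p.natDegree, ψ (p.coeff i) * y ^ i| := by rw [hlc, abs_neg]
      _ ≤ ∑ i ∈ Finset.range p.natDegree, |ψ (p.coeff i) * y ^ i| :=
          Finset.abs_sum_le_sum_abs _ _
      _ ≤ ∑ i ∈ Finset.range p.natDegree, |ψ (p.coeff i)| * y ^ e := by
          refine Finset.sum_le_sum fun i hi => ?_
          rw [abs_mul, abs_of_pos (pow_pos hy0 _)]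
          refine mul_le_mul_of_nonneg_left (pow_le_pow_right₀ hy1 ?_) (abs_nonneg _)
          have := Finset.mem_range.1 hi
          omega
      _ = _ := by rw [Finset.sum_mul]
  have hye : 0 < y ^ e := pow_pos hy0 e
  have hb2 : |ψ (p.coeff p.natDegree)| * y ≤ ∑ i ∈ Finset.range p.natDegree, |ψ (p.coeff i)| := by
    have : |ψ (p.coeff p.natDegree)| * y * y ^ e ≤
        (∑ i ∈ Finset.range p.natDegree, |ψ (p.coeff i)|) * y ^ e := by
      refine le_trans (le_of_eq ?_) hb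
      conv_rhs => rw [he, pow_succ]
      rw [he]
      ring
    exact le_of_mul_le_mul_right this hye
  refine ⟨k + 1, ?_⟩
  have hn0 : (0 : K) ≤ n := Nat.cast_nonneg n
  have hnt := ht n
  have hk0 : 0 < ψ X ^ k := pow_pos h0 k
  rw [leadingCoeff] at hn
  have f1 : y ≤ n * |ψ (p.coeff p.natDegree)| * y := by nlinarith
  have f2 : n * |ψ (p.coeff p.natDegree)| * y ≤ n * ψ X ^ k := by
    have := mul_le_mul_of_nonneg_left (hb2.trans hk.le) hn0
    linarith [mul_assoc (n : K) |ψ (p.coeff p.natDegree)| y]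
  have f3 : n * ψ X ^ k < ψ X ^ (k + 1) := by
    rw [pow_succ, mul_comm]
    exact mul_lt_mul_of_pos_left hnt hk0
  linarith

end ord

section sign

variable {K : Type*} [Field K] [LinearOrder K] [IsStrictOrderedRing K]

/-- A polynomial `(X - x) R` with `R(x) ≠ 0` changes sign near `x`. -/
theorem sign_change (R : K[X]) (a b x : K) (hax : a < x) (hxb : x < b) (hR : R.eval x ≠ 0) :
    ∃ c d : K, a < c ∧ c < d ∧ d < b ∧
      ((X - C x) * R).eval c * ((X - C x) * R).eval d < 0 := by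
  letI : TopologicalSpace K := Preorder.topology K
  haveI : OrderTopology K := ⟨rfl⟩
  have hcont : Continuous fun y => R.eval y * R.eval x := by fun_prop
  have hpos : 0 < R.eval x * R.eval x := mul_self_pos.2 hR
  have hev : ∀ᶠ y in nhds x, 0 < R.eval y * R.eval x :=
    hcont.continuousAt.eventually (lt_mem_nhds hpos)
  have hev2 : ∀ᶠ y in nhds x, y ∈ Set.Ioo a b := Ioo_mem_nhds hax hxb
  obtain ⟨l, u, ⟨hl, hu⟩, hlu⟩ := (mem_nhds_iff_exists_Ioo_subset' ⟨a, hax⟩ ⟨b, hxb⟩).1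
    (hev.and hev2)
  obtain ⟨c, hc1, hc2⟩ := exists_between hl
  obtain ⟨d, hd1, hd2⟩ := exists_between hu
  have hc := hlu (show c ∈ Set.Ioo l u from ⟨hc1, hc2.trans hu⟩)
  have hd := hlu (show d ∈ Set.Ioo l u from ⟨hl.trans hd1, hd2⟩)
  obtain ⟨hcR, hcab⟩ := hc
  obtain ⟨hdR, hdab⟩ := hd
  refine ⟨c, d, hcab.1, hc2.trans hd1, hdab.2, ?_⟩
  simp only [eval_mul, eval_sub, eval_X, eval_C]
  have h1 : 0 < R.eval c * R.eval d := by
    by_contra hle
    push Not at hle
    have : 0 < (R.eval c * R.eval x) * (R.eval d * R.eval x) := mul_pos hcR hdR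
    nlinarith
  have h2 : (c - x) * (d - x) < 0 := mul_neg_of_neg_of_pos (by linarith) (by linarith)
  nlinarith

end sign

end Pool.Agent.Q75.DSB
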