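import Mathlib

/-!
# A polyhedral renorming of `c₀`: definition

`Y` consists of the bounded families `g (n, σ)`, `n : ℕ`, `σ : ℕ → Bool`, of the form
`g (n, σ) = ± x n + ∑ k < n, 2 ^ (-k-1) g (k, σ)` (sign given by `σ n`) for a null sequence `x`.
-/

set_option autoImplicit false

open Filter Topology Finset

namespace Pool.Agent.Q75.Pol

abbrev Ix : Type := ℕ × (ℕ → Bool)

abbrev L : Type := lp (fun _ : Ix => ℝ) ⊤

/-- the sign of a boolean -/
def sg (b : Bool) : ℝ := if b then 1 else -1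

theorem sg_abs (b : Bool) : |sg b| = 1 := by cases b <;> simp [sg]

theorem sg_mul_self (b : Bool) : sg b * sg b = 1 := by cases b <;> simp [sg]

theorem sg_inj {a b : Bool} (h : sg a = sg b) : a = b := by
  cases a <;> cases b <;> simp [sg] at h ⊢ <;> norm_num at h

/-- weighted partial sums -/
noncomputable def Sm (g : Ix → ℝ) (σ : ℕ → Bool) (n : ℕ) : ℝ :=
  ∑ k ∈ range n, (1 / 2 : ℝ) ^ (k + 1) * g (k, σ)

/-- the coordinates of the underlying sequence -/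
noncomputable def Xc (g : Ix → ℝ) (n : ℕ) : ℝ := g (n, fun _ => true) - Sm g (fun _ => true) n

theorem Sm_add (f g : Ix → ℝ) (σ : ℕ → Bool) (n : ℕ) : Sm (f + g) σ n = Sm f σ n + Sm g σ n := by
  simp [Sm, mul_add, Finset.sum_add_distrib]

theorem Sm_smul (c : ℝ) (g : Ix → ℝ) (σ : ℕ → Bool) (n : ℕ) : Sm (c • g) σ n = c * Sm g σ n := by
  simp only [Sm, Pi.smul_apply, smul_eq_mul, Finset.mul_sum]
  exact Finset.sum_congr rfl fun k _ => by ring

theorem Sm_succ (g : Ix → ℝ) (σ : ℕ → Bool) (n : ℕ) :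
    Sm g σ (n + 1) = Sm g σ n + (1 / 2 : ℝ) ^ (n + 1) * g (n, σ) := by
  rw [Sm, Finset.sum_range_succ, Sm]

theorem Xc_add (f g : Ix → ℝ) (n : ℕ) : Xc (f + g) n = Xc f n + Xc g n := by
  simp only [Xc, Sm_add, Pi.add_apply]; ring

theorem Xc_smul (c : ℝ) (g : Ix → ℝ) (n : ℕ) : Xc (c • g) n = c * Xc g n := by
  simp only [Xc, Sm_smul, Pi.smul_apply, smul_eq_mul]; ring

theorem geo (n : ℕ) : ∑ k ∈ range n, (1 / 2 : ℝ) ^ (k + 1) = 1 - (1 / 2) ^ n := by
  induction n with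
  | zero => simp
  | succ n ih => rw [Finset.sum_range_succ, ih]; ring

theorem Sm_abs {g : Ix → ℝ} {σ : ℕ → Bool} {C : ℝ} (h : ∀ k, |g (k, σ)| ≤ C) (n : ℕ) :
    |Sm g σ n| ≤ C * (1 - (1 / 2) ^ n) := by
  rw [Sm, ← geo n, Finset.mul_sum]
  refine (Finset.abs_sum_le_sum_abs _ _).trans (Finset.sum_le_sum fun k _ => ?_)
  rw [abs_mul, abs_of_nonneg (by positivity), mul_comm]
  exact mul_le_mul_of_nonneg_right (h k) (by positivity)

theorem Sm_sub_abs {g : Ix → ℝ} {σ : ℕ → Bool} {C : ℝ} (h : ∀ k, |g (k, σ)| ≤ C) {m n : ℕ}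
    (hmn : m ≤ n) : |Sm g σ n - Sm g σ m| ≤ C * (1 / 2) ^ m := by
  have hC : 0 ≤ C := (abs_nonneg _).trans (h 0)
  have h1 : |Sm g σ n - Sm g σ m| ≤ C * ((1 / 2) ^ m - (1 / 2) ^ n) := by
    induction n, hmn using Nat.le_induction with
    | base => simp
    | succ n hn ih =>
      rw [Sm_succ]
      have e : Sm g σ n + (1 / 2 : ℝ) ^ (n + 1) * g (n, σ) - Sm g σ m =
        (Sm g σ n - Sm g σ m) + (1 / 2 : ℝ) ^ (n + 1) * g (n, σ) := by ring
      rw [e]
      refine (abs_add_le _ _).trans ?_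
      have h2 : |(1 / 2 : ℝ) ^ (n + 1) * g (n, σ)| ≤ (1 / 2 : ℝ) ^ (n + 1) * C := by
        rw [abs_mul, abs_of_nonneg (by positivity : (0 : ℝ) ≤ (1 / 2) ^ (n + 1))]
        exact mul_le_mul_of_nonneg_left (h n) (by positivity)
      calc _ ≤ C * ((1 / 2) ^ m - (1 / 2) ^ n) + (1 / 2 : ℝ) ^ (n + 1) * C := add_le_add ih h2
        _ = C * ((1 / 2) ^ m - (1 / 2) ^ (n + 1)) := by ring
  refine h1.trans ?_
  have : (0 : ℝ) ≤ C * (1 / 2) ^ n := by positivity
  nlinarith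

/-- the space -/
def Y : Submodule ℝ L where
  carrier := {g | (∀ n σ, (g : Ix → ℝ) (n, σ) = sg (σ n) * Xc g n + Sm g σ n) ∧
    Tendsto (fun n => Xc g n) atTop (𝓝 0)}
  add_mem' := by
    rintro f g ⟨h1, h2⟩ ⟨h3, h4⟩
    refine ⟨fun n σ => ?_, ?_⟩
    · rw [lp.coeFn_add, Xc_add, Sm_add, Pi.add_apply, h1 n σ, h3 n σ]; ring
    · have := h2.add h4
      rw [add_zero] at this
      refine this.congr fun n => ?_
      rw [lp.coeFn_add, Xc_add]
  zero_mem' := by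
    refine ⟨fun n σ => ?_, ?_⟩
    · simp [Xc, Sm]
    · simp [Xc, Sm]
  smul_mem' := by
    rintro c g ⟨h1, h2⟩
    refine ⟨fun n σ => ?_, ?_⟩
    · rw [lp.coeFn_smul, Xc_smul, Sm_smul, Pi.smul_apply, h1 n σ, smul_eq_mul]; ring
    · have := h2.const_mul c
      rw [mul_zero] at this
      refine this.congr fun n => ?_
      rw [lp.coeFn_smul, Xc_smul]

/-- evaluation, a continuous linear functional -/
noncomputable def ev (i : Ix) : L →L[ℝ] ℝ :=
  LinearMap.mkContinuous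
    { toFun := fun g => (g : Ix → ℝ) i
      map_add' := fun f g => by rw [lp.coeFn_add, Pi.add_apply]
      map_smul' := fun c g => by rw [lp.coeFn_smul, Pi.smul_apply]; rfl } 1
    fun g => by
      rw [one_mul]
      exact lp.norm_apply_le_norm ENNReal.top_ne_zero g i

theorem ev_apply (i : Ix) (g : L) : ev i g = (g : Ix → ℝ) i := rfl

theorem abs_apply_le (g : L) (i : Ix) : |(g : Ix → ℝ) i| ≤ ‖g‖ :=
  lp.norm_apply_le_norm ENNReal.top_ne_zero g i

theorem cont_apply (i : Ix) : Continuous fun g : L => (g : Ix → ℝ) i := (ev i).continuous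

theorem cont_Sm (σ : ℕ → Bool) (n : ℕ) : Continuous fun g : L => Sm g σ n := by
  unfold Sm
  exact continuous_finsetSum _ fun k _ => continuous_const.mul (cont_apply _)

theorem cont_Xc (n : ℕ) : Continuous fun g : L => Xc g n := by
  unfold Xc
  exact (cont_apply _).sub (cont_Sm _ _)

theorem Xc_abs (g : L) (n : ℕ) : |Xc g n| ≤ 2 * ‖g‖ := by
  have h1 := abs_apply_le g (n, fun _ => true)
  have h2 := Sm_abs (g := g) (σ := fun _ => true) (fun k => abs_apply_le g (k, fun _ => true)) n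
  have h3 : (0 : ℝ) ≤ ‖g‖ * (1 / 2) ^ n := by positivity
  have h4 : |Xc g n| ≤ |(g : Ix → ℝ) (n, fun _ => true)| + |Sm g (fun _ => true) n| := abs_sub _ _
  nlinarith

theorem Y_closed : IsClosed (Y : Set L) := by
  have e : (Y : Set L) = {g : L | ∀ n σ, (g : Ix → ℝ) (n, σ) = sg (σ n) * Xc g n + Sm g σ n} ∩
      {g : L | Tendsto (fun n => Xc g n) atTop (𝓝 0)} := rfl
  rw [e]
  refine IsClosed.inter ?_ ?_
  · simp only [Set.setOf_forall]
    exact isClosed_iInter fun n => isClosed_iInter fun σ =>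
      isClosed_eq (cont_apply _) ((continuous_const.mul (cont_Xc n)).add (cont_Sm σ n))
  · rw [← isSeqClosed_iff_isClosed]
    intro u g hu hg
    rw [Set.mem_setOf_eq, Metric.tendsto_atTop]
    intro ε hε
    rw [Metric.tendsto_atTop] at hg
    obtain ⟨j, hj⟩ := hg (ε / 4) (by positivity)
    have hj' := hj j le_rfl
    rw [dist_eq_norm] at hj'
    obtain ⟨N, hN⟩ := (Metric.tendsto_atTop.1 (hu j)) (ε / 2) (by positivity)
    refine ⟨N, fun n hn => ?_⟩
    have h1 := hN n hn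
    rw [Real.dist_eq, sub_zero] at h1 ⊢
    have h2 := Xc_abs (u j - g) n
    have h3 : Xc ((u j - g : L) : Ix → ℝ) n = Xc (u j) n - Xc g n := by
      have h4 : ((u j : L) : Ix → ℝ) = ((u j - g : L) : Ix → ℝ) + (g : Ix → ℝ) := by
        rw [← lp.coeFn_add, sub_add_cancel]
      rw [h4, Xc_add]; ring
    rw [h3] at h2
    have h4 : |Xc g n| ≤ |Xc (u j) n| + |Xc (u j) n - Xc g n| := by
      have := abs_sub_abs_le_abs_sub (Xc g n) (Xc (u j) n)
      rw [abs_sub_comm] at this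
      linarith
    linarith

instance : CompleteSpace Y := Y_closed.completeSpace_coe

/-! ### Elements with rapidly decreasing coordinates -/

/-- the weighted sums, by recursion -/
noncomputable def sx (x : ℕ → ℝ) (σ : ℕ → Bool) : ℕ → ℝ
  | 0 => 0
  | n + 1 => sx x σ n + (1 / 2) ^ (n + 1) * (sg (σ n) * x n + sx x σ n)

/-- the functional `(n, σ)` at `x` -/
noncomputable def bx (x : ℕ → ℝ) (i : Ix) : ℝ := sg (i.2 i.1) * x i.1 + sx x i.2 i.1

theorem Sm_bx (x : ℕ → ℝ) (σ : ℕ → Bool) (n : ℕ) : Sm (bx x) σ n = sx x σ n := by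
  induction n with
  | zero => simp [Sm, sx]
  | succ n ih => rw [Sm_succ, ih, sx, bx]

theorem Xc_bx (x : ℕ → ℝ) (n : ℕ) : Xc (bx x) n = x n := by
  rw [Xc, Sm_bx, bx]; simp [sg]

theorem sx_abs {x : ℕ → ℝ} {a : ℝ} (ha : 0 ≤ a) (h : ∀ n, |x n| ≤ a * (1 / 2) ^ n) (σ : ℕ → Bool)
    (n : ℕ) : |sx x σ n| ≤ a * (1 - (1 / 2) ^ n) := by
  induction n with
  | zero => simp [sx]
  | succ n ih =>
    rw [sx]
    have h1 : |sg (σ n) * x n + sx x σ n| ≤ a := by
      refine (abs_add_le _ _).trans ?_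
      rw [abs_mul, sg_abs, one_mul]
      have := h n
      linarith
    refine (abs_add_le _ _).trans ?_
    rw [abs_mul, abs_of_nonneg (by positivity : (0 : ℝ) ≤ (1 / 2) ^ (n + 1))]
    have h2 := mul_le_mul_of_nonneg_left h1 (by positivity : (0 : ℝ) ≤ (1 / 2) ^ (n + 1))
    calc _ ≤ a * (1 - (1 / 2) ^ n) + (1 / 2) ^ (n + 1) * a := add_le_add ih h2
      _ = a * (1 - (1 / 2) ^ (n + 1)) := by ring

theorem bx_abs {x : ℕ → ℝ} {a : ℝ} (ha : 0 ≤ a) (h : ∀ n, |x n| ≤ a * (1 / 2) ^ n) (i : Ix) :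
    |bx x i| ≤ a := by
  rw [bx]
  refine (abs_add_le _ _).trans ?_
  rw [abs_mul, sg_abs, one_mul]
  have := h i.1
  have := sx_abs ha h i.2 i.1
  linarith

/-- the element with the coordinates `x` -/
noncomputable def mk (x : ℕ → ℝ) (a : ℝ) (ha : 0 ≤ a) (h : ∀ n, |x n| ≤ a * (1 / 2) ^ n) : Y :=
  ⟨⟨bx x, memℓp_infty ⟨a, by rintro _ ⟨i, rfl⟩; exact bx_abs ha h i⟩⟩, by
    refine ⟨fun n σ => ?_, ?_⟩
    · show bx x (n, σ) = sg (σ n) * Xc (bx x) n + Sm (bx x) σ n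
      rw [Xc_bx, Sm_bx, bx]
    · show Tendsto (fun n => Xc (bx x) n) atTop (𝓝 0)
      simp only [Xc_bx]
      have h1 : Tendsto (fun n : ℕ => a * (1 / 2 : ℝ) ^ n) atTop (𝓝 0) := by
        have := (tendsto_pow_atTop_nhds_zero_of_lt_one (r := (1 / 2 : ℝ)) (by norm_num)
          (by norm_num)).const_mul a
        rwa [mul_zero] at this
      exact squeeze_zero_norm (fun n => h n) h1⟩

theorem mk_norm_le (x : ℕ → ℝ) (a : ℝ) (ha : 0 ≤ a) (h : ∀ n, |x n| ≤ a * (1 / 2) ^ n) :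
    ‖mk x a ha h‖ ≤ a :=
  lp.norm_le_of_forall_le ha fun i => bx_abs ha h i

/-- the extreme points -/
noncomputable def ee (τ : ℕ → Bool) : Y :=
  mk (fun n => sg (τ n) * (1 / 2) ^ n) 1 zero_le_one fun n => by
    rw [abs_mul, sg_abs, abs_of_nonneg (by positivity)]

/-- the functional `(n, σ)` on `Y` -/
noncomputable def bb (n : ℕ) (σ : ℕ → Bool) (y : Y) : ℝ := ((y : L) : Ix → ℝ) (n, σ)

theorem bb_abs (n : ℕ) (σ : ℕ → Bool) (y : Y) : |bb n σ y| ≤ ‖y‖ := abs_apply_le _ _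

theorem bb_add (n : ℕ) (σ : ℕ → Bool) (y z : Y) : bb n σ (y + z) = bb n σ y + bb n σ z := by
  rw [bb, Submodule.coe_add, lp.coeFn_add]; rfl

theorem bb_smul (n : ℕ) (σ : ℕ → Bool) (c : ℝ) (y : Y) : bb n σ (c • y) = c * bb n σ y := by
  rw [bb, Submodule.coe_smul, lp.coeFn_smul]; rfl

theorem bb_cont (n : ℕ) (σ : ℕ → Bool) : Continuous (bb n σ) :=
  (cont_apply _).comp continuous_subtype_val

theorem norm_le {y : Y} {C : ℝ} (hC : 0 ≤ C) (h : ∀ n σ, |bb n σ y| ≤ C) : ‖y‖ ≤ C :=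
  lp.norm_le_of_forall_le hC fun i => h i.1 i.2

/-- the coordinates -/
noncomputable def xx (y : Y) (n : ℕ) : ℝ := Xc (y : L) n
/-- the partial sums -/
noncomputable def ss (y : Y) (σ : ℕ → Bool) (n : ℕ) : ℝ := Sm (y : L) σ n

theorem bb_eq (n : ℕ) (σ : ℕ → Bool) (y : Y) : bb n σ y = sg (σ n) * xx y n + ss y σ n :=
  y.2.1 n σ

theorem xx_tendsto (y : Y) : Tendsto (xx y) atTop (𝓝 0) := y.2.2

theorem xx_abs (y : Y) (n : ℕ) : |xx y n| ≤ 2 * ‖y‖ := Xc_abs _ _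

theorem xx_add (y z : Y) (n : ℕ) : xx (y + z) n = xx y n + xx z n := by
  rw [xx, Submodule.coe_add, lp.coeFn_add, Xc_add]; rfl

theorem xx_smul (c : ℝ) (y : Y) (n : ℕ) : xx (c • y) n = c * xx y n := by
  rw [xx, Submodule.coe_smul, lp.coeFn_smul, Xc_smul]; rfl

theorem ss_add (y z : Y) (σ : ℕ → Bool) (n : ℕ) : ss (y + z) σ n = ss y σ n + ss z σ n := by
  rw [ss, Submodule.coe_add, lp.coeFn_add, Sm_add]; rfl

theorem ss_smul (c : ℝ) (y : Y) (σ : ℕ → Bool) (n : ℕ) : ss (c • y) σ n = c * ss y σ n := by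
  rw [ss, Submodule.coe_smul, lp.coeFn_smul, Sm_smul]; rfl

theorem ss_zero (y : Y) (σ : ℕ → Bool) : ss y σ 0 = 0 := by simp [ss, Sm]

theorem ss_succ (y : Y) (σ : ℕ → Bool) (n : ℕ) :
    ss y σ (n + 1) = ss y σ n + (1 / 2 : ℝ) ^ (n + 1) * bb n σ y := Sm_succ _ _ _

theorem ss_sub_abs (y : Y) (σ : ℕ → Bool) {m n : ℕ} (h : m ≤ n) :
    |ss y σ n - ss y σ m| ≤ ‖y‖ * (1 / 2) ^ m :=
  Sm_sub_abs (fun k => abs_apply_le (y : L) (k, σ)) h

/-- an element is determined by its coordinates -/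
theorem ext_xx {y z : Y} (h : ∀ n, xx y n = xx z n) : y = z := by
  have h1 : ∀ σ n, ss y σ n = ss z σ n := by
    intro σ n
    induction n with
    | zero => rw [ss_zero, ss_zero]
    | succ n ih => rw [ss_succ, ss_succ, bb_eq, bb_eq, ih, h]
  apply Subtype.ext
  apply lp.ext
  funext i
  show bb i.1 i.2 y = bb i.1 i.2 z
  rw [bb_eq, bb_eq, h, h1]

/-- the first functionals depend on the first signs only -/
theorem ss_congr (y : Y) {σ τ : ℕ → Bool} {n : ℕ} (h : ∀ k < n, σ k = τ k) : ss y σ n = ss y τ n := by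
  induction n with
  | zero => rw [ss_zero, ss_zero]
  | succ n ih =>
    rw [ss_succ, ss_succ, bb_eq, bb_eq, ih fun k hk => h k (hk.trans n.lt_succ_self), h n n.lt_succ_self]

theorem bb_congr (y : Y) {σ τ : ℕ → Bool} {n : ℕ} (h : ∀ k ≤ n, σ k = τ k) : bb n σ y = bb n τ y := by
  rw [bb_eq, bb_eq, ss_congr y fun k hk => h k hk.le, h n le_rfl]

theorem xx_ee (τ : ℕ → Bool) (n : ℕ) : xx (ee τ) n = sg (τ n) * (1 / 2) ^ n :=
  Xc_bx (fun n => sg (τ n) * (1 / 2) ^ n) n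

theorem ee_norm_le (τ : ℕ → Bool) : ‖ee τ‖ ≤ 1 := mk_norm_le _ _ _ _

theorem ss_ee (τ : ℕ → Bool) (n : ℕ) : ss (ee τ) τ n = 1 - (1 / 2) ^ n := by
  induction n with
  | zero => rw [ss_zero]; simp
  | succ n ih =>
    rw [ss_succ, bb_eq, ih, xx_ee, ← mul_assoc, sg_mul_self]; ring

theorem bb_ee (τ : ℕ → Bool) (n : ℕ) : bb n τ (ee τ) = 1 := by
  rw [bb_eq, ss_ee, xx_ee, ← mul_assoc, sg_mul_self]; ring

theorem ee_norm (τ : ℕ → Bool) : ‖ee τ‖ = 1 := by
  refine le_antisymm (ee_norm_le τ) ?_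
  have := bb_abs 0 τ (ee τ)
  rwa [bb_ee, abs_one] at this

theorem eq_smul_ee {y : Y} {τ : ℕ → Bool} {c : ℝ} (h : ∀ n, bb n τ y = c) : y = c • ee τ := by
  have h1 : ∀ n, ss y τ n = c * (1 - (1 / 2) ^ n) := by
    intro n
    induction n with
    | zero => rw [ss_zero]; simp
    | succ n ih => rw [ss_succ, ih, h]; ring
  apply ext_xx
  intro n
  have h2 := h n
  rw [bb_eq, h1] at h2
  rw [xx_smul, xx_ee]
  have h3 : sg (τ n) * (sg (τ n) * xx y n) = sg (τ n) * (c * (1 / 2) ^ n) := by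
    congr 1; linarith
  rw [← mul_assoc, sg_mul_self, one_mul] at h3
  rw [h3]; ring

theorem ee_injective {σ τ : ℕ → Bool} {c : ℝ} (hc : 0 < c) (h : ee σ = c • ee τ) : σ = τ := by
  funext n
  have h1 : xx (ee σ) n = c * xx (ee τ) n := by rw [h, xx_smul]
  rw [xx_ee, xx_ee] at h1
  have h2 : (0 : ℝ) < (1 / 2) ^ n := by positivity
  have h3 : sg (σ n) = c * sg (τ n) := by
    have : sg (σ n) * (1 / 2) ^ n = (c * sg (τ n)) * (1 / 2) ^ n := by rw [h1]; ring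
    exact mul_right_cancel₀ h2.ne' this
  cases h4 : σ n <;> cases h5 : τ n <;> rw [h4, h5] at h3 <;> simp [sg] at h3 <;> linarith

theorem bx_small {x : ℕ → ℝ} {a : ℝ} (ha : 0 ≤ a) (h : ∀ n, |x n| ≤ a * (1 / 2) ^ n) {m : ℕ}
    (h0 : ∀ n < m, x n = 0) (i : Ix) : |bx x i| ≤ 2 * a * (1 / 2) ^ m := by
  obtain ⟨n, σ⟩ := i
  have h1 : ∀ n ≤ m, sx x σ n = 0 := by
    intro n hn
    induction n with
    | zero => rfl
    | succ n ih => rw [sx, ih (by omega), h0 n (by omega)]; ring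
  rw [bx]
  show |sg (σ n) * x n + sx x σ n| ≤ _
  rcases lt_or_ge n m with hn | hn
  · rw [h0 n hn, h1 n hn.le, mul_zero, add_zero, abs_zero]; positivity
  · have h2 : |sx x σ n| ≤ a * (1 / 2) ^ m := by
      have h3 := Sm_sub_abs (g := bx x) (σ := σ) (C := a) (fun k => bx_abs ha h (k, σ)) hn
      rwa [Sm_bx, Sm_bx, h1 m le_rfl, sub_zero] at h3
    refine (abs_add_le _ _).trans ?_
    rw [abs_mul, sg_abs, one_mul]
    have h4 : a * (1 / 2 : ℝ) ^ n ≤ a * (1 / 2) ^ m :=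
      mul_le_mul_of_nonneg_left (pow_le_pow_of_le_one (by norm_num) (by norm_num) hn) ha
    have := h n
    linarith

/-- continuity of the extreme points -/
theorem ee_close {σ τ : ℕ → Bool} {m : ℕ} (h : ∀ k < m, σ k = τ k) :
    ‖ee σ - ee τ‖ ≤ 4 * (1 / 2) ^ m := by
  set x : ℕ → ℝ := fun n => sg (σ n) * (1 / 2) ^ n - sg (τ n) * (1 / 2) ^ n with hx
  have h1 : ∀ n, |x n| ≤ 2 * (1 / 2) ^ n := by
    intro n
    rw [hx]
    refine (abs_sub _ _).trans ?_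
    rw [abs_mul, abs_mul, sg_abs, sg_abs, abs_of_nonneg (by positivity : (0 : ℝ) ≤ (1 / 2) ^ n)]
    linarith
  have h2 : ∀ n < m, x n = 0 := by
    intro n hn
    rw [hx]
    show sg (σ n) * (1 / 2) ^ n - sg (τ n) * (1 / 2) ^ n = 0
    rw [h n hn, sub_self]
  have e : ee σ - ee τ = mk x 2 (by norm_num) h1 := by
    apply ext_xx
    intro n
    have h3 : xx (ee σ - ee τ) n = xx (ee σ) n - xx (ee τ) n := by
      have := xx_add (ee σ - ee τ) (ee τ) n
      rw [sub_add_cancel] at this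
      linarith
    rw [h3, xx_ee, xx_ee]
    exact (Xc_bx x n).symm
  rw [e]
  refine lp.norm_le_of_forall_le (by positivity) fun i => ?_
  have := bx_small (by norm_num) h1 h2 i
  calc _ ≤ _ := this
    _ = _ := by ring

end Pool.Agent.Q75.Pol
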