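import Pool.Agent.Q75.PolA

/-!
# The space is polyhedral
-/

set_option autoImplicit false

open Filter Topology Finset

namespace Pool.Agent.Q75.Pol

/-! ### Finitely many constraints give a polytope -/

theorem polytope_of_finite {V : Type} [NormedAddCommGroup V] [NormedSpace ℝ V] (E : Submodule ℝ V)
    [FiniteDimensional ℝ E] {J : Type} [Finite J] (b : J → V → ℝ)
    (hadd : ∀ j x y, b j (x + y) = b j x + b j y) (hsmul : ∀ j (c : ℝ) x, b j (c • x) = c * b j x)
    (h : ∀ y ∈ E, (∀ j, |b j y| ≤ 1) ↔ ‖y‖ ≤ 1) :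
    ∃ F : Set V, F.Finite ∧ {y | y ∈ E ∧ ‖y‖ ≤ 1} = convexHull ℝ F := by
  set K : Set V := {y | y ∈ E ∧ ‖y‖ ≤ 1} with hK
  have hKc : IsCompact K := by
    have e : K = (fun y : E => (y : V)) '' Metric.closedBall (0 : E) 1 := by
      ext y
      simp only [hK, Set.mem_ofPred_eq, Set.mem_image, mem_closedBall_zero_iff]
      constructor
      · rintro ⟨h1, h2⟩
        exact ⟨⟨y, h1⟩, h2, rfl⟩
      · rintro ⟨z, h1, rfl⟩
        exact ⟨z.2, h1⟩
    rw [e]
    exact (isCompact_closedBall (0 : E) 1).image continuous_subtype_val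
  have hconv : Convex ℝ K := by
    have e : K = (E : Set V) ∩ Metric.closedBall (0 : V) 1 := by
      ext y
      simp [hK]
    rw [e]
    exact E.convex.inter (convex_closedBall _ _)
  let act : V → (J → Prop × Prop) := fun y j => (b j y = 1, b j y = -1)
  have hinj : Set.InjOn act (K.extremePoints ℝ) := by
    intro x hx x' hx' hact
    by_contra hne
    obtain ⟨⟨hxE, hx1⟩, hxe⟩ := mem_extremePoints.1 hx
    obtain ⟨⟨hx'E, hx'1⟩, -⟩ := mem_extremePoints.1 hx'
    set v : V := x' - x with hv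
    have hvE : v ∈ E := E.sub_mem hx'E hxE
    have hbv : ∀ j, b j v = b j x' - b j x := by
      intro j
      have h1 : b j (v + x) = b j v + b j x := hadd j v x
      rw [hv, sub_add_cancel] at h1
      rw [hv]; linarith
    have hb : ∀ j, |b j x| ≤ 1 := (h x hxE).2 hx1
    have hb' : ∀ j, |b j x'| ≤ 1 := (h x' hx'E).2 hx'1
    have ht : ∀ᶠ t : ℝ in 𝓝[>] 0, ∀ j, |b j x| < 1 → t * |b j v| ≤ 1 - |b j x| := by
      rw [Filter.eventually_all]
      intro j
      by_cases hj : |b j x| < 1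
      · have h1 : Tendsto (fun t : ℝ => t * |b j v|) (𝓝[>] 0) (𝓝 0) := by
          have h2 : Tendsto (fun t : ℝ => t * |b j v|) (𝓝 0) (𝓝 (0 * |b j v|)) :=
            tendsto_id.mul_const _
          rw [zero_mul] at h2
          exact h2.mono_left nhdsWithin_le_nhds
        filter_upwards [h1.eventually (gt_mem_nhds (sub_pos.2 hj))] with t ht _
        exact ht.le
      · exact Filter.Eventually.of_forall fun t hh => absurd hh hj
    obtain ⟨t, ht1, ht0⟩ := (ht.and self_mem_nhdsWithin).exists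
    have key : ∀ s : ℝ, |s| = t → x + s • v ∈ K := by
      intro s hs
      have hE : x + s • v ∈ E := E.add_mem hxE (E.smul_mem _ hvE)
      refine ⟨hE, (h _ hE).1 fun j => ?_⟩
      rw [hadd, hsmul]
      rcases (hb j).lt_or_eq with hj | hj
      · refine (abs_add_le _ _).trans ?_
        rw [abs_mul, hs]
        have := ht1 j hj
        linarith
      · have h0 : b j v = 0 := by
          rw [hbv]
          have h3 := congrFun hact j
          simp only [act, Prod.mk.injEq, eq_iff_iff] at h3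
          rcases eq_or_eq_neg_of_abs_eq hj with h4 | h4
          · rw [h4, h3.1.1 h4, sub_self]
          · rw [h4, h3.2.1 h4, sub_self]
        rw [h0, mul_zero, add_zero, hj]
    have h1 := key t (abs_of_pos ht0)
    have h2 := key (-t) (by rw [abs_neg, abs_of_pos ht0])
    have h3 := hxe _ h1 _ h2 ⟨1 / 2, 1 / 2, by norm_num, by norm_num, by norm_num, by
      rw [smul_add, smul_add, smul_smul, smul_smul]
      have e : (1 / 2 : ℝ) * -t = -(1 / 2 * t) := by ring
      rw [e, neg_smul]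
      have e2 : (1 / 2 : ℝ) • x + (1 / 2 : ℝ) • x = x := by rw [← add_smul]; norm_num
      calc _ = (1 / 2 : ℝ) • x + (1 / 2 : ℝ) • x := by abel
        _ = x := e2⟩
    have h4 : t • v = 0 := by
      have := h3.1
      rwa [add_eq_left] at this
    rcases smul_eq_zero.1 h4 with h5 | h5
    · exact ht0.ne' h5
    · rw [hv, sub_eq_zero] at h5
      exact hne h5.symm
  have hfin : (K.extremePoints ℝ).Finite :=
    Set.Finite.of_injOn (fun _ _ => Set.mem_univ _) hinj Set.finite_univ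
  refine ⟨K.extremePoints ℝ, hfin, ?_⟩
  have := closure_convexHull_extremePoints hKc hconv
  rwa [(hfin.isCompact_convexHull ℝ).isClosed.closure_eq, eq_comm] at this

/-! ### The limit functional -/

theorem summ (τ : ℕ → Bool) (y : Y) : Summable fun k => (1 / 2 : ℝ) ^ (k + 1) * bb k τ y := by
  refine Summable.of_norm_bounded (g := fun k => (1 / 2 : ℝ) ^ k * ‖y‖)
    ((summable_geometric_of_lt_one (by norm_num) (by norm_num)).mul_right _) fun k => ?_
  rw [Real.norm_eq_abs, abs_mul, abs_of_nonneg (by positivity : (0 : ℝ) ≤ (1 / 2) ^ (k + 1))]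
  refine mul_le_mul ?_ (bb_abs k τ y) (abs_nonneg _) (by positivity)
  exact pow_le_pow_of_le_one (by norm_num) (by norm_num) k.le_succ

/-- the weighted mean of the functionals of `τ` -/
noncomputable def be (τ : ℕ → Bool) (y : Y) : ℝ := ∑' k, (1 / 2 : ℝ) ^ (k + 1) * bb k τ y

theorem be_tendsto (τ : ℕ → Bool) (y : Y) : Tendsto (ss y τ) atTop (𝓝 (be τ y)) :=
  (summ τ y).hasSum.tendsto_sum_nat

theorem be_add (τ : ℕ → Bool) (y z : Y) : be τ (y + z) = be τ y + be τ z := by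
  refine tendsto_nhds_unique (be_tendsto τ (y + z)) ?_
  refine ((be_tendsto τ y).add (be_tendsto τ z)).congr fun n => (ss_add y z τ n).symm

theorem be_smul (τ : ℕ → Bool) (c : ℝ) (y : Y) : be τ (c • y) = c * be τ y := by
  refine tendsto_nhds_unique (be_tendsto τ (c • y)) ?_
  refine ((be_tendsto τ y).const_mul c).congr fun n => (ss_smul c y τ n).symm

theorem be_sub_abs (τ : ℕ → Bool) (y : Y) (n : ℕ) : |be τ y - ss y τ n| ≤ ‖y‖ * (1 / 2) ^ n := by
  have h1 : Tendsto (fun m => |ss y τ m - ss y τ n|) atTop (𝓝 |be τ y - ss y τ n|) :=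
    ((be_tendsto τ y).sub_const _).abs
  exact le_of_tendsto h1 (eventually_atTop.2 ⟨n, fun m hm => ss_sub_abs y τ hm⟩)

theorem be_ee (τ : ℕ → Bool) : be τ (ee τ) = 1 := by
  refine tendsto_nhds_unique (be_tendsto τ (ee τ)) ?_
  have h1 : Tendsto (fun n : ℕ => 1 - (1 / 2 : ℝ) ^ n) atTop (𝓝 (1 - 0)) :=
    (tendsto_pow_atTop_nhds_zero_of_lt_one (r := (1 / 2 : ℝ)) (by norm_num)
      (by norm_num)).const_sub 1
  rw [sub_zero] at h1
  exact h1.congr fun n => (ss_ee τ n).symm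

theorem eq_zero_of (τ : ℕ → Bool) (y : Y) (h0 : be τ y = 0) (h : ∀ k, bb k τ y ≤ 0) : y = 0 := by
  have h1 : HasSum (fun k => -((1 / 2 : ℝ) ^ (k + 1) * bb k τ y)) 0 := by
    have := (summ τ y).hasSum.neg
    rwa [show ∑' k, (1 / 2 : ℝ) ^ (k + 1) * bb k τ y = 0 from h0, neg_zero] at this
  have h2 := (hasSum_zero_iff_of_nonneg (fun k => by
    have h3 : (0 : ℝ) < (1 / 2) ^ (k + 1) := by positivity
    have := h k
    show (0 : ℝ) ≤ -((1 / 2 : ℝ) ^ (k + 1) * bb k τ y)
    nlinarith)).1 h1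
  have h3 : ∀ k, bb k τ y = 0 := by
    intro k
    have h4 := congrFun h2 k
    simp only [Pi.zero_apply, neg_eq_zero, mul_eq_zero] at h4
    rcases h4 with h4 | h4
    · exact absurd h4 (by positivity)
    · exact h4
  have h4 := eq_smul_ee h3
  rwa [zero_smul] at h4

/-! ### Compactness in finite dimensional subspaces -/

theorem claimC (τ : ℕ → Bool) (E : Submodule ℝ Y) [FiniteDimensional ℝ E]
    (hE : ∀ y ∈ E, be τ y = 0) :
    ∃ (M : ℕ) (ε : ℝ), 0 < ε ∧ ∀ y ∈ E, ∃ k < M, ε * ‖y‖ ≤ bb k τ y := by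
  have hc : ∀ k, Continuous fun y : E => bb k τ (y : Y) :=
    fun k => (bb_cont k τ).comp continuous_subtype_val
  let O : ℕ → Set E := fun j => {y | ∃ k < j, (1 : ℝ) / (j + 1) < bb k τ (y : Y)}
  have hO : ∀ j, IsOpen (O j) := by
    intro j
    have e : O j = ⋃ k, ⋃ (_ : k < j), {y : E | (1 : ℝ) / (j + 1) < bb k τ (y : Y)} := by
      ext y
      simp [O]
    rw [e]
    exact isOpen_iUnion fun k => isOpen_iUnion fun _ => isOpen_lt continuous_const (hc k)
  have hmono : Monotone O := by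
    rintro i j hij y ⟨k, hk, h1⟩
    refine ⟨k, hk.trans_le hij, lt_of_le_of_lt ?_ h1⟩
    have : (i : ℝ) ≤ j := by exact_mod_cast hij
    exact one_div_le_one_div_of_le (by positivity) (by linarith)
  have hcov : Metric.sphere (0 : E) 1 ⊆ ⋃ j, O j := by
    intro y hy
    have hy1 : ‖y‖ = 1 := mem_sphere_zero_iff_norm.1 hy
    have h1 : ∃ k, 0 < bb k τ (y : Y) := by
      by_contra hcon
      push Not at hcon
      have h2 : (y : Y) = 0 := eq_zero_of τ y (hE y y.2) hcon
      have h3 : y = 0 := by exact_mod_cast h2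
      subst h3
      exact zero_ne_one ((norm_zero (E := E)).symm.trans hy1)
    obtain ⟨k, hk⟩ := h1
    obtain ⟨j, hj⟩ := exists_nat_one_div_lt hk
    refine Set.mem_iUnion.2 ⟨max j (k + 1), k, by omega, lt_of_le_of_lt ?_ hj⟩
    have : (j : ℝ) ≤ (max j (k + 1) : ℕ) := by exact_mod_cast le_max_left _ _
    exact one_div_le_one_div_of_le (by positivity) (by linarith)
  obtain ⟨j, hj⟩ := (isCompact_sphere (0 : E) 1).elim_directed_cover O hO hcov
    (hmono.directed_le)
  refine ⟨j + 1, 1 / ((j : ℝ) + 1), by positivity, fun y hy => ?_⟩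
  rcases eq_or_ne y 0 with h0 | h0
  · refine ⟨0, Nat.succ_pos _, ?_⟩
    have e : bb 0 τ (0 : Y) = 0 := by
      have := bb_smul 0 τ 0 (0 : Y)
      rwa [zero_smul, zero_mul] at this
    rw [h0, norm_zero, mul_zero, e]
  · have hn : 0 < ‖y‖ := norm_pos_iff.2 h0
    have hmem : (⟨‖y‖⁻¹ • y, E.smul_mem _ hy⟩ : E) ∈ Metric.sphere (0 : E) 1 := by
      rw [mem_sphere_zero_iff_norm]
      show ‖‖y‖⁻¹ • y‖ = 1
      rw [norm_smul, norm_inv, norm_norm, inv_mul_cancel₀ hn.ne']
    obtain ⟨k, hk, h1⟩ := hj hmem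
    refine ⟨k, by omega, ?_⟩
    have h2 : (1 : ℝ) / (j + 1) < bb k τ (‖y‖⁻¹ • y) := h1
    rw [bb_smul] at h2
    have h3 := mul_lt_mul_of_pos_right h2 hn
    rw [mul_comm (‖y‖⁻¹) _, mul_assoc, inv_mul_cancel₀ hn.ne', mul_one] at h3
    exact h3.le

theorem claimU (E : Submodule ℝ Y) [FiniteDimensional ℝ E] {δ : ℝ} (hδ : 0 < δ) :
    ∃ N : ℕ, ∀ n ≥ N, ∀ y ∈ E, |xx y n| ≤ δ * ‖y‖ := by
  let O : ℕ → Set E := fun N => ⋃ z : {z : E // ∀ n ≥ N, |xx (z : Y) n| < δ / 2},
    Metric.ball (z : E) (δ / 4)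
  have hO : ∀ j, IsOpen (O j) := fun j => isOpen_iUnion fun _ => Metric.isOpen_ball
  have hmono : Monotone O := by
    intro i j hij y hy
    obtain ⟨z, hz⟩ := Set.mem_iUnion.1 hy
    exact Set.mem_iUnion.2 ⟨⟨z.1, fun n hn => z.2 n (hij.trans hn)⟩, hz⟩
  have hcov : Metric.sphere (0 : E) 1 ⊆ ⋃ j, O j := by
    intro y _
    obtain ⟨N, hN⟩ := (Metric.tendsto_atTop.1 (xx_tendsto (y : Y))) (δ / 2) (by positivity)
    refine Set.mem_iUnion.2 ⟨N, Set.mem_iUnion.2 ⟨⟨y, fun n hn => ?_⟩,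
      Metric.mem_ball_self (by positivity)⟩⟩
    have := hN n hn
    rwa [Real.dist_eq, sub_zero] at this
  obtain ⟨N, hN⟩ := (isCompact_sphere (0 : E) 1).elim_directed_cover O hO hcov
    (hmono.directed_le)
  refine ⟨N, fun n hn y hy => ?_⟩
  rcases eq_or_ne y 0 with h0 | h0
  · have e : xx (0 : Y) n = 0 := by
      have := xx_smul 0 (0 : Y) n
      rwa [zero_smul, zero_mul] at this
    rw [h0, norm_zero, mul_zero, e, abs_zero]
  · have hp : 0 < ‖y‖ := norm_pos_iff.2 h0
    have hmem : (⟨‖y‖⁻¹ • y, E.smul_mem _ hy⟩ : E) ∈ Metric.sphere (0 : E) 1 := by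
      rw [mem_sphere_zero_iff_norm]
      show ‖‖y‖⁻¹ • y‖ = 1
      rw [norm_smul, norm_inv, norm_norm, inv_mul_cancel₀ hp.ne']
    obtain ⟨z, hz⟩ := Set.mem_iUnion.1 (hN hmem)
    have h1 := z.2 n hn
    rw [Metric.mem_ball, dist_eq_norm] at hz
    have h2 : ‖(‖y‖⁻¹ • y) - ((z : E) : Y)‖ < δ / 4 := hz
    have h3 := xx_abs ((‖y‖⁻¹ • y) - ((z : E) : Y)) n
    have h4 : xx (‖y‖⁻¹ • y) n = xx ((‖y‖⁻¹ • y) - ((z : E) : Y)) n + xx ((z : E) : Y) n := by
      rw [← xx_add, sub_add_cancel]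
    rw [xx_smul] at h4
    have h5 : |‖y‖⁻¹ * xx y n| ≤ δ := by
      rw [h4]
      refine (abs_add_le _ _).trans ?_
      linarith
    rw [abs_mul, abs_of_pos (inv_pos.2 hp)] at h5
    have h6 := mul_le_mul_of_nonneg_left h5 hp.le
    rw [← mul_assoc, mul_inv_cancel₀ hp.ne', one_mul] at h6
    linarith

/-- near `τ` the functionals of `τ` suffice -/
theorem localLemma (τ : ℕ → Bool) (E : Submodule ℝ Y) [FiniteDimensional ℝ E] :
    ∃ N : ℕ, ∀ σ : ℕ → Bool, (∀ k < N, σ k = τ k) → ∀ y ∈ E, (∀ k < N, |bb k τ y| ≤ 1) →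
      ∀ n, |bb n σ y| ≤ 1 := by
  -- the larger space
  let E' : Submodule ℝ Y := E ⊔ Submodule.span ℝ {ee τ}
  have : FiniteDimensional ℝ E' := Submodule.finiteDimensional_sup _ _
  let E0 : Submodule ℝ Y :=
    { carrier := {y | y ∈ E' ∧ be τ y = 0}
      add_mem' := by
        rintro y z ⟨h1, h2⟩ ⟨h3, h4⟩
        exact ⟨E'.add_mem h1 h3, by rw [be_add, h2, h4, add_zero]⟩
      zero_mem' := ⟨E'.zero_mem, by
        have := be_smul τ 0 (0 : Y)
        rwa [zero_smul, zero_mul] at this⟩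
      smul_mem' := by
        rintro c y ⟨h1, h2⟩
        exact ⟨E'.smul_mem c h1, by rw [be_smul, h2, mul_zero]⟩ }
  have hle : E0 ≤ E' := fun y hy => hy.1
  have : FiniteDimensional ℝ E0 := Submodule.finiteDimensional_of_le hle
  obtain ⟨M, ε, hε, hM⟩ := claimC τ E0 fun y hy => hy.2
  obtain ⟨N1, hN1⟩ := claimU E0 (δ := ε / 2) (by positivity)
  obtain ⟨N2, hN2⟩ := exists_pow_lt_of_lt_one (show (0 : ℝ) < ε / 4 by positivity)
    (show (1 / 2 : ℝ) < 1 by norm_num)
  refine ⟨max M (max N1 N2), fun σ hσ y hy hb n => ?_⟩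
  set N := max M (max N1 N2) with hN
  rcases lt_or_ge n N with hn | hn
  · rw [bb_congr y (σ := σ) (τ := τ) fun k hk => hσ k (hk.trans_lt hn)]
    exact hb n hn
  -- decomposition
  set c : ℝ := be τ y with hc
  set z : Y := y - c • ee τ with hz
  have hzE : z ∈ E0 := by
    refine ⟨E'.sub_mem (Submodule.mem_sup_left hy)
      (E'.smul_mem _ (Submodule.mem_sup_right (Submodule.mem_span_singleton_self _))), ?_⟩
    have h1 : be τ (z + c • ee τ) = be τ z + be τ (c • ee τ) := be_add _ _ _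
    rw [hz, sub_add_cancel, be_smul, be_ee, mul_one] at h1
    linarith
  have hyz : y = z + c • ee τ := by rw [hz, sub_add_cancel]
  -- far functionals are small on `z`
  have hfar : |bb n σ z| ≤ ε * ‖z‖ := by
    rw [bb_eq]
    have h1 : |xx z n| ≤ ε / 2 * ‖z‖ := hN1 n (by omega) z hzE
    have h2 : |ss z σ n - ss z σ N| ≤ ‖z‖ * (1 / 2) ^ N := ss_sub_abs z σ hn
    have h3 : ss z σ N = ss z τ N := ss_congr z hσ
    have h4 : |be τ z - ss z τ N| ≤ ‖z‖ * (1 / 2) ^ N := be_sub_abs τ z N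
    rw [hzE.2, zero_sub, abs_neg] at h4
    have h5 : (1 / 2 : ℝ) ^ N ≤ ε / 4 :=
      (pow_le_pow_of_le_one (by norm_num) (by norm_num) (by omega)).trans hN2.le
    have h6 : ‖z‖ * (1 / 2) ^ N ≤ ‖z‖ * (ε / 4) := mul_le_mul_of_nonneg_left h5 (norm_nonneg _)
    have h7 : |ss z σ n| ≤ |ss z σ n - ss z σ N| + |ss z σ N| := by
      have := abs_add_le (ss z σ n - ss z σ N) (ss z σ N)
      rwa [sub_add_cancel] at this
    rw [h3] at h7
    refine (abs_add_le _ _).trans ?_
    rw [abs_mul, sg_abs, one_mul]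
    rw [h3] at h2
    nlinarith
  -- some early functional is large
  have hmain : |c| + ε * ‖z‖ ≤ 1 := by
    rcases le_total 0 c with h0 | h0
    · obtain ⟨k, hk, h1⟩ := hM z hzE
      have h2 := hb k (by omega)
      rw [hyz, bb_add, bb_smul, bb_ee, mul_one] at h2
      rw [abs_of_nonneg h0]
      have := le_abs_self (bb k τ z + c)
      linarith
    · obtain ⟨k, hk, h1⟩ := hM (-z) (E0.neg_mem hzE)
      have h2 := hb k (by omega)
      have h3 : bb k τ (-z) = - bb k τ z := by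
        have := bb_smul k τ (-1) z
        rw [neg_one_smul] at this
        linarith
      rw [hyz, bb_add, bb_smul, bb_ee, mul_one] at h2
      rw [h3, norm_neg] at h1
      rw [abs_of_nonpos h0]
      have := neg_le_abs (bb k τ z + c)
      linarith
  rw [hyz, bb_add, bb_smul]
  refine (abs_add_le _ _).trans ?_
  rw [abs_mul]
  have h1 := (bb_abs n σ (ee τ)).trans (ee_norm_le τ)
  have h2 : |c| * |bb n σ (ee τ)| ≤ |c| * 1 := mul_le_mul_of_nonneg_left h1 (abs_nonneg _)
  linarith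

/-- finitely many functionals suffice -/
theorem globalLemma (E : Submodule ℝ Y) [FiniteDimensional ℝ E] :
    ∃ N : ℕ, ∀ y ∈ E, (∀ k < N, ∀ σ, |bb k σ y| ≤ 1) → ‖y‖ ≤ 1 := by
  choose M hM using fun τ : ℕ → Bool => localLemma τ E
  obtain ⟨t, ht⟩ := (isCompact_univ (X := ℕ → Bool)).elim_nhds_subcover
    (fun τ => {σ | ∀ k < M τ, σ k = τ k}) (fun τ _ => by
      have e : {σ : ℕ → Bool | ∀ k < M τ, σ k = τ k} =
          Set.pi (Set.Iio (M τ)) fun k => {τ k} := by
        ext σ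
        simp [Set.mem_pi]
      rw [e]
      exact (isOpen_set_pi (Set.finite_Iio _) fun k _ => isOpen_discrete _).mem_nhds
        (by simp [Set.mem_pi]))
  refine ⟨t.sup M, fun y hy h => norm_le zero_le_one fun n σ => ?_⟩
  obtain ⟨τ, hτ, h1⟩ := Set.mem_iUnion₂.1 (ht.2 (Set.mem_univ σ))
  exact hM τ σ h1 y hy (fun k hk => h k (hk.trans_le (Finset.le_sup hτ)) τ) n

/-- **The space is polyhedral.** -/
theorem polyhedral (E : Submodule ℝ Y) [FiniteDimensional ℝ E] :
    ∃ F : Set Y, F.Finite ∧ {y | y ∈ E ∧ ‖y‖ ≤ 1} = convexHull ℝ F := by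
  obtain ⟨N, hN⟩ := globalLemma E
  let ext : (Fin N → Bool) → (ℕ → Bool) := fun s i => if h : i < N then s ⟨i, h⟩ else true
  refine polytope_of_finite E (J := Fin N × (Fin N → Bool)) (fun j y => bb j.1 (ext j.2) y)
    (fun j x y => bb_add _ _ _ _) (fun j c x => bb_smul _ _ _ _) fun y hy => ⟨fun h => ?_, fun h j => ?_⟩
  · refine hN y hy fun k hk σ => ?_
    have h1 := h (⟨k, hk⟩, fun i => σ i)
    have h2 : bb k (ext fun i => σ i) y = bb k σ y := bb_congr y fun i hi => by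
      simp only [ext]
      rw [dif_pos (lt_of_le_of_lt hi hk)]
    simp only at h1
    rwa [h2] at h1
  · exact (bb_abs _ _ _).trans h

end Pool.Agent.Q75.Pol
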