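import Mathlib

/-!
# Real closed fields: irreducible polynomials and the intermediate value property
-/

namespace Pool.Agent.Q75.RCF

open Polynomial IntermediateField

section alg

variable {R : Type*} [Field R] [CharZero R] [IsRealClosed R]

/-- A finite extension of odd degree of a real closed field is trivial. -/
theorem finrank_odd {E : Type*} [Field E] [Algebra R E] [FiniteDimensional R E]
    (h : Odd (Module.finrank R E)) : Module.finrank R E = 1 := by
  obtain ⟨α, hα⟩ := Field.exists_primitive_element R E
  have hint : IsIntegral R α := IsIntegral.of_finite R α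
  have h1 : (minpoly R α).natDegree = Module.finrank R E := by
    rw [← IntermediateField.adjoin.finrank hint, hα, IntermediateField.finrank_top']
  obtain ⟨r, hr⟩ := IsRealClosed.exists_isRoot_of_odd_natDegree (f := minpoly R α)
    (by rw [h1]; exact h)
  have h2 := Polynomial.degree_eq_one_of_irreducible_of_root (minpoly.irreducible hint) hr
  rw [← h1]
  exact Polynomial.natDegree_eq_of_degree_eq_some h2

/-- A finite Galois extension of a real closed field has degree a power of two. -/
theorem finrank_pow {E : Type*} [Field E] [Algebra R E] [FiniteDimensional R E] [IsGalois R E] :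
    ∃ k : ℕ, Module.finrank R E = 2 ^ k := by
  have : Fact (Nat.Prime 2) := ⟨Nat.prime_two⟩
  obtain ⟨P⟩ : Nonempty (Sylow 2 (E ≃ₐ[R] E)) := inferInstance
  have hc := IsGalois.card_aut_eq_finrank R E
  have h1 := IntermediateField.finrank_fixedField_eq_card (P : Subgroup (E ≃ₐ[R] E))
  have h2 := Module.finrank_mul_finrank R
    (IntermediateField.fixedField (P : Subgroup (E ≃ₐ[R] E))) E
  have h3 := Sylow.card_eq_multiplicity P
  have hidx := (P : Subgroup (E ≃ₐ[R] E)).card_mul_index
  have hodd : ¬ 2 ∣ (P : Subgroup (E ≃ₐ[R] E)).index := P.not_dvd_index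
  have hpos : 0 < Nat.card (P : Subgroup (E ≃ₐ[R] E)) := Nat.card_pos
  have h4 : Module.finrank R (IntermediateField.fixedField (P : Subgroup (E ≃ₐ[R] E))) =
      (P : Subgroup (E ≃ₐ[R] E)).index := by
    have : Nat.card (P : Subgroup (E ≃ₐ[R] E)) *
        Module.finrank R (IntermediateField.fixedField (P : Subgroup (E ≃ₐ[R] E))) =
        Nat.card (P : Subgroup (E ≃ₐ[R] E)) * (P : Subgroup (E ≃ₐ[R] E)).index := by
      rw [hidx, hc, ← h2, h1, mul_comm]
    exact Nat.eq_of_mul_eq_mul_left hpos this
  have h5 : Module.finrank R (IntermediateField.fixedField (P : Subgroup (E ≃ₐ[R] E))) = 1 := by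
    apply finrank_odd
    rw [h4]
    exact Nat.odd_iff.2 (Nat.two_dvd_ne_zero.1 hodd)
  refine ⟨(Nat.card (E ≃ₐ[R] E)).factorization 2, ?_⟩
  rw [← h2, h5, one_mul, h1]
  exact h3

end alg

/-- There is no quadratic extension of a field of characteristic zero all of whose elements are
squares. -/
theorem no_quadratic {M E : Type*} [Field M] [CharZero M] [Field E] [Algebra M E]
    (hsq : ∀ x : M, IsSquare x) : Module.finrank M E ≠ 2 := by
  intro h2
  have : FiniteDimensional M E := Module.finite_of_finrank_pos (by omega)
  obtain ⟨β, hβ⟩ : ∃ β : E, β ∉ (⊥ : IntermediateField M E) := by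
    by_contra hcon
    push Not at hcon
    have : (⊥ : IntermediateField M E) = ⊤ := by
      ext x; simp [hcon x]
    have h1 := IntermediateField.finrank_bot (F := M) (E := E)
    rw [this, IntermediateField.finrank_top'] at h1
    omega
  have hint : IsIntegral M β := IsIntegral.of_finite M β
  have hle : (minpoly M β).natDegree ≤ 2 := h2 ▸ minpoly.natDegree_le β
  have hmonic := minpoly.monic hint
  -- degree at most two: write the relation
  set u := (minpoly M β).coeff 1 with hu
  set v := (minpoly M β).coeff 0 with hv
  set w := (minpoly M β).coeff 2 with hw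
  have hexp : algebraMap M E w * β ^ 2 + algebraMap M E u * β + algebraMap M E v = 0 := by
    have h0 := minpoly.aeval M β
    rw [Polynomial.aeval_eq_sum_range' (n := 3) (by omega)] at h0
    simp only [Finset.sum_range_succ, Finset.sum_range_zero, Algebra.smul_def] at h0
    linear_combination h0
  have hw1 : w = 1 := by
    have hne : (minpoly M β).natDegree ≠ 1 := by
      intro h1
      apply hβ
      have := minpoly.natDegree_eq_one_iff (A := M) (x := β) |>.1 h1
      obtain ⟨a, ha⟩ := this
      rw [IntermediateField.mem_bot]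
      exact ⟨a, ha⟩
    have hpos := minpoly.natDegree_pos hint
    have hd : (minpoly M β).natDegree = 2 := by omega
    rw [hw, ← hd]
    exact hmonic.coeff_natDegree
  rw [hw1, map_one, one_mul] at hexp
  obtain ⟨γ, hγ⟩ := hsq (u ^ 2 / 4 - v)
  have hkey : (β + algebraMap M E (u / 2) - algebraMap M E γ) *
      (β + algebraMap M E (u / 2) + algebraMap M E γ) = 0 := by
    have e1 : algebraMap M E γ * algebraMap M E γ = algebraMap M E (u ^ 2 / 4 - v) := by
      rw [← map_mul, ← hγ]
    have e2 : algebraMap M E (u / 2) * algebraMap M E (u / 2) = algebraMap M E (u ^ 2 / 4) := by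
      rw [← map_mul]; congr 1; ring
    have e3 : algebraMap M E (u / 2) * 2 = algebraMap M E u := by
      have : (2 : E) = algebraMap M E 2 := (map_ofNat _ 2).symm
      rw [this, ← map_mul]; congr 1; ring
    rw [map_sub] at e1
    linear_combination hexp - e1 + e2 + β * e3
  apply hβ
  rw [IntermediateField.mem_bot]
  rcases mul_eq_zero.1 hkey with h | h
  · exact ⟨γ - u / 2, by rw [map_sub]; linear_combination -h⟩
  · exact ⟨-γ - u / 2, by rw [map_sub, map_neg]; linear_combination -h⟩

section ord

variable {R : Type*} [Field R] [LinearOrder R] [IsStrictOrderedRing R] [IsRealClosed R]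

/-- Square roots in `R(i)`. -/
theorem exists_sqrt (a b : R) : ∃ c d : R, c ^ 2 - d ^ 2 = a ∧ 2 * c * d = b := by
  obtain ⟨r, hr⟩ : IsSquare (a ^ 2 + b ^ 2) := .of_nonneg (by positivity)
  wlog hr0 : 0 ≤ r generalizing r
  · exact this (-r) (by rw [hr]; ring) (by linarith)
  have h1 : a ≤ r := by
    by_contra h
    push Not at h
    nlinarith [sq_nonneg b]
  have h2 : -a ≤ r := by
    by_contra h
    push Not at h
    nlinarith [sq_nonneg b]
  obtain ⟨c, hc⟩ : IsSquare ((r + a) / 2) := .of_nonneg (by linarith)
  obtain ⟨d, hd⟩ : IsSquare ((r - a) / 2) := .of_nonneg (by linarith)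
  have hb : (2 * c * d) ^ 2 = b ^ 2 := by
    have : (2 * c * d) ^ 2 = 4 * (c * c) * (d * d) := by ring
    rw [this, ← hc, ← hd]
    linear_combination -hr
  have ha : c ^ 2 - d ^ 2 = a := by
    have : c ^ 2 - d ^ 2 = c * c - d * d := by ring
    rw [this, ← hc, ← hd]; ring
  rcases sq_eq_sq_iff_eq_or_eq_neg.1 hb with h | h
  · exact ⟨c, d, ha, h⟩
  · exact ⟨c, -d, by rw [neg_sq]; exact ha, by linear_combination -h⟩

/-- every element of `R(i)` is a square -/
theorem isSquare_adjoin {E : Type*} [Field E] [Algebra R E] (j : E) (hj : j ^ 2 = -1)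
    (x : R⟮j⟯) : IsSquare x := by
  have hint : IsIntegral R j := by
    refine ⟨X ^ 2 + 1, ?_, ?_⟩
    · monicity!
    · simp [hj]
  have hform : ∀ y ∈ R⟮j⟯, ∃ a b : R, y = algebraMap R E a + algebraMap R E b * j := by
    intro y hy
    have hy' : y ∈ Algebra.adjoin R {j} := by
      rw [← IntermediateField.adjoin_simple_toSubalgebra_of_isAlgebraic hint.isAlgebraic]
      exact hy
    refine Algebra.adjoin_induction (p := fun y _ => ∃ a b : R,
      y = algebraMap R E a + algebraMap R E b * j) ?_ ?_ ?_ ?_ hy'
    · rintro x rfl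
      exact ⟨0, 1, by simp⟩
    · intro r
      exact ⟨r, 0, by simp⟩
    · rintro x y - - ⟨a, b, rfl⟩ ⟨c, d, rfl⟩
      exact ⟨a + c, b + d, by simp only [map_add]; ring⟩
    · rintro x y - - ⟨a, b, rfl⟩ ⟨c, d, rfl⟩
      refine ⟨a * c - b * d, a * d + b * c, ?_⟩
      simp only [map_add, map_sub, map_mul]
      linear_combination (algebraMap R E b * algebraMap R E d) * hj
  obtain ⟨a, b, hab⟩ := hform x x.2
  obtain ⟨c, d, h1, h2⟩ := exists_sqrt a b
  refine ⟨algebraMap R R⟮j⟯ c + algebraMap R R⟮j⟯ d * AdjoinSimple.gen R j, ?_⟩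
  apply Subtype.ext
  rw [hab]
  simp only [MulMemClass.coe_mul, AddMemClass.coe_add, AdjoinSimple.coe_gen]
  change _ = (algebraMap R E c + algebraMap R E d * j) * (algebraMap R E c + algebraMap R E d * j)
  rw [← h1, ← h2]
  simp only [map_sub, map_mul, map_pow, map_ofNat]
  linear_combination -(algebraMap R E d) ^ 2 * hj

/-- A finite Galois extension of a real closed field containing a square root of `-1` has
degree two. -/
theorem finrank_eq_two {E : Type*} [Field E] [Algebra R E] [FiniteDimensional R E]
    [IsGalois R E] (j : E) (hj : j ^ 2 = -1) : Module.finrank R E ≤ 2 := by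
  obtain ⟨k, hk⟩ := finrank_pow (R := R) (E := E)
  by_contra hcon
  push Not at hcon
  have htow := Module.finrank_mul_finrank R R⟮j⟯ E
  have h2 : Module.finrank R R⟮j⟯ ≤ 2 := by
    have hint : IsIntegral R j := IsIntegral.of_finite R j
    rw [IntermediateField.adjoin.finrank hint]
    have hdvd : minpoly R j ∣ (X ^ 2 + 1 : R[X]) := minpoly.dvd R j (by simp [hj])
    have hne : (X ^ 2 + 1 : R[X]) ≠ 0 := by
      apply Monic.ne_zero; monicity!
    calc (minpoly R j).natDegree ≤ (X ^ 2 + 1 : R[X]).natDegree :=
          natDegree_le_of_dvd hdvd hne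
      _ = 2 := by compute_degree!
  -- the degree of `E` over `R(j)` is a power of two, at least two
  obtain ⟨l, hl, hlk⟩ : ∃ l, l ≤ k ∧ Module.finrank R⟮j⟯ E = 2 ^ l :=
    (Nat.dvd_prime_pow Nat.prime_two).1 (by rw [← hk, ← htow]; exact dvd_mul_left _ _)
  have hl1 : 1 ≤ l := by
    by_contra h
    have : l = 0 := by omega
    subst this
    rw [hlk] at htow
    omega
  have : IsGalois R⟮j⟯ E := inferInstance
  have : Fact (Nat.Prime 2) := ⟨Nat.prime_two⟩
  have hcard : Nat.card (E ≃ₐ[R⟮j⟯] E) = 2 ^ l := by
    rw [IsGalois.card_aut_eq_finrank, hlk]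
  obtain ⟨N, hN⟩ := Sylow.exists_subgroup_card_pow_prime (G := E ≃ₐ[R⟮j⟯] E) 2 (n := l - 1)
    (by rw [hcard]; exact pow_dvd_pow 2 (by omega))
  have h3 := IntermediateField.finrank_fixedField_eq_card N
  have h4 := Module.finrank_mul_finrank R⟮j⟯ (IntermediateField.fixedField N) E
  rw [h3, hN, hlk] at h4
  have h5 : Module.finrank R⟮j⟯ (IntermediateField.fixedField N) = 2 := by
    have : 2 ^ l = 2 * 2 ^ (l - 1) := by
      rw [← pow_succ']; congr 1; omega
    rw [this] at h4
    exact Nat.eq_of_mul_eq_mul_right (by positivity) h4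
  have : CharZero R⟮j⟯ := charZero_of_injective_algebraMap (algebraMap R R⟮j⟯).injective
  exact no_quadratic (fun x => isSquare_adjoin j hj x) h5

/-- Irreducible polynomials over a real closed field have degree at most two. -/
theorem natDegree_le_two {p : R[X]} (hp : Irreducible p) : p.natDegree ≤ 2 := by
  set g : R[X] := p * (X ^ 2 + 1) with hg
  have hq : (X ^ 2 + 1 : R[X]) ≠ 0 := by
    apply Monic.ne_zero; monicity!
  have hg0 : g ≠ 0 := mul_ne_zero hp.ne_zero hq
  let E := g.SplittingField
  have : IsGalois R E := { }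
  have hsplit : (g.map (algebraMap R E)).Splits := SplittingField.splits g
  have hmap0 : g.map (algebraMap R E) ≠ 0 := by
    rwa [Ne, Polynomial.map_eq_zero]
  have s1 : (p.map (algebraMap R E)).Splits := by
    refine Splits.of_dvd hsplit hmap0 (Polynomial.map_dvd _ ⟨_, rfl⟩)
  have s2 : ((X ^ 2 + 1 : R[X]).map (algebraMap R E)).Splits := by
    refine Splits.of_dvd hsplit hmap0 (Polynomial.map_dvd _ (dvd_mul_left _ _))
  obtain ⟨α, hα⟩ := s1.exists_eval_eq_zero (by
    rw [degree_map]; exact (Irreducible.degree_pos hp).ne')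
  obtain ⟨j, hj⟩ := s2.exists_eval_eq_zero (by
    rw [degree_map]
    have : (X ^ 2 + 1 : R[X]).degree = 2 := by compute_degree!
    rw [this]; norm_num)
  have hj' : j ^ 2 = -1 := by
    simp at hj
    linear_combination hj
  have h2 := finrank_eq_two (R := R) (E := E) j hj'
  have hassoc : Associated p (minpoly R α) := by
    have hd : minpoly R α ∣ p := minpoly.dvd R α (by
      rw [aeval_def, ← eval_map]; exact hα)
    exact ((minpoly.irreducible (IsIntegral.of_finite R α)).associated_of_dvd hp hd).symm
  rw [natDegree_eq_of_degree_eq (degree_eq_degree_of_associated hassoc)]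
  exact (minpoly.natDegree_le α).trans h2

/-- **Intermediate value property** of polynomials over real closed fields. -/
theorem ivt (g : R[X]) {c d : R} (hcd : c < d) (h : g.eval c * g.eval d < 0) :
    ∃ x, c < x ∧ x < d ∧ g.eval x = 0 := by
  induction hn : g.natDegree using Nat.strong_induction_on generalizing g with
  | _ n ih =>
    have hg0 : g ≠ 0 := by rintro rfl; simp at h
    have hnu : ¬ IsUnit g := by
      intro hu
      obtain ⟨a, -, ha⟩ := Polynomial.isUnit_iff.1 hu
      rw [← ha] at h
      simp only [eval_C] at h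
      nlinarith [mul_self_nonneg a]
    obtain ⟨q, hq, r, hr⟩ := WfDvdMonoid.exists_irreducible_factor hnu hg0
    subst hr
    have hr0 : r ≠ 0 := right_ne_zero_of_mul hg0
    simp only [eval_mul] at h
    have hqd := natDegree_le_two hq
    have hqpos : 0 < q.natDegree := Irreducible.natDegree_pos hq
    have hdeg : (q * r).natDegree = q.natDegree + r.natDegree := natDegree_mul hq.ne_zero hr0
    by_cases hs : q.eval c * q.eval d < 0
    · -- `q` has degree one
      rcases Nat.lt_or_ge q.natDegree 2 with h1 | h1
      · have h1 : q.natDegree = 1 := by omega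
        obtain ⟨a, b, ha, hab⟩ : ∃ a b : R, a ≠ 0 ∧ q = C a * X + C b := by
          refine ⟨q.coeff 1, q.coeff 0, ?_, ?_⟩
          · have : q.leadingCoeff ≠ 0 := leadingCoeff_ne_zero.2 hq.ne_zero
            rwa [leadingCoeff, h1] at this
          · exact eq_X_add_C_of_natDegree_le_one h1.le
        subst hab
        simp only [eval_add, eval_mul, eval_C, eval_X] at hs
        refine ⟨-b / a, ?_, ?_, ?_⟩
        · rcases lt_or_gt_of_ne ha with ha' | ha'
          · rw [lt_div_iff_of_neg ha']
            have hac := mul_lt_mul_of_neg_left hcd ha'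
            rcases mul_neg_iff.1 hs with ⟨h5, h6⟩ | ⟨h5, h6⟩ <;> linarith [mul_comm a c]
          · rw [lt_div_iff₀ ha']
            have hac := mul_lt_mul_of_pos_left hcd ha'
            rcases mul_neg_iff.1 hs with ⟨h5, h6⟩ | ⟨h5, h6⟩ <;> linarith [mul_comm a c]
        · rcases lt_or_gt_of_ne ha with ha' | ha'
          · rw [div_lt_iff_of_neg ha']
            have hac := mul_lt_mul_of_neg_left hcd ha'
            rcases mul_neg_iff.1 hs with ⟨h5, h6⟩ | ⟨h5, h6⟩ <;> linarith [mul_comm a d]
          · rw [div_lt_iff₀ ha']
            have hac := mul_lt_mul_of_pos_left hcd ha'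
            rcases mul_neg_iff.1 hs with ⟨h5, h6⟩ | ⟨h5, h6⟩ <;> linarith [mul_comm a d]
        · simp only [eval_mul, eval_add, eval_C, eval_X]
          have : a * (-b / a) + b = 0 := by field_simp; ring
          rw [this, zero_mul]
      · exfalso
        have h2 : q.natDegree = 2 := by omega
        set A := q.coeff 2 with hA
        set B := q.coeff 1 with hB
        set D := q.coeff 0 with hD
        have hA0 : A ≠ 0 := by
          have : q.leadingCoeff ≠ 0 := leadingCoeff_ne_zero.2 hq.ne_zero
          rwa [leadingCoeff, h2] at this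
        have hev : ∀ y, q.eval y = A * y ^ 2 + B * y + D := by
          intro y
          rw [eval_eq_sum_range' (n := 3) (by omega)]
          simp only [Finset.sum_range_succ, Finset.sum_range_zero]
          ring
        have hnoroot : ∀ y, q.eval y ≠ 0 := by
          intro y hy
          have := Polynomial.degree_eq_one_of_irreducible_of_root hq hy
          rw [degree_eq_natDegree hq.ne_zero, h2] at this
          norm_num at this
        have hdisc : B ^ 2 - 4 * A * D < 0 := by
          by_contra hge
          push Not at hge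
          obtain ⟨s, hs'⟩ : IsSquare (B ^ 2 - 4 * A * D) := .of_nonneg hge
          apply hnoroot ((-B + s) / (2 * A))
          rw [hev]
          have h2A : (2 : R) * A ≠ 0 := mul_ne_zero two_ne_zero hA0
          field_simp
          linear_combination -hs'
        have hsgn : ∀ y, 0 < A * q.eval y := by
          intro y
          rw [hev]
          nlinarith [sq_nonneg (2 * A * y + B)]
        nlinarith [mul_pos (hsgn c) (hsgn d), sq_nonneg A, hs, mul_self_nonneg A]
    · have hs' : 0 < q.eval c * q.eval d := by
        rcases lt_trichotomy (q.eval c * q.eval d) 0 with h1 | h1 | h1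
        · exact absurd h1 hs
        · exfalso
          have : q.eval c * r.eval c * (q.eval d * r.eval d) =
            (q.eval c * q.eval d) * (r.eval c * r.eval d) := by ring
          rw [this, h1, zero_mul] at h
          exact lt_irrefl _ h
        · exact h1
      have hr' : r.eval c * r.eval d < 0 := by
        have : q.eval c * r.eval c * (q.eval d * r.eval d) =
            (q.eval c * q.eval d) * (r.eval c * r.eval d) := by ring
        rw [this] at h
        exact neg_of_mul_neg_left (by rw [mul_comm]; exact h) hs'.le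
      obtain ⟨x, h1, h2, h3⟩ := ih r.natDegree (by omega) r hr' rfl
      exact ⟨x, h1, h2, by rw [eval_mul, h3, mul_zero]⟩

end ord

end Pool.Agent.Q75.RCF
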